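import Pool.Agent.H85A.FC.Loc
import Pool.Agent.N188.FC.Char

set_option autoImplicit false

/-! Certificates for families of triples. -/

namespace Pool.Agent.H85A.FC

open Finset Pool.Agent.N188.FC

/-- a piece of the link of a vertex, with its value -/
inductive Gad
  | E (a b m : ℕ)
  | P (p a q m : ℕ)
  | S (b x y z m : ℕ)

def Gad.supp : Gad → Finset ℕ
  | .E a b _ => {a, b}
  | .P p a q _ => {p, a, q}
  | .S b x y z _ => {b, x, y, z}

def Gad.val : Gad → ℕ
  | .E _ _ m => m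
  | .P _ _ _ m => m
  | .S _ _ _ _ m => m

/-- the value of the piece is correct for the weights `w` -/
def Gad.Ok (H : Finset (Finset ℕ)) (w : ℕ → ℕ) (v : ℕ) : Gad → Prop
  | .E a b m => a ≠ b ∧ {v, a, b} ∈ H ∧ m ≤ w a ∧ m ≤ w b ∧ 3 * m ≤ w a + w b
  | .P p a q m => (p ≠ a ∧ a ≠ q ∧ p ≠ q) ∧ ({v, p, a} ∈ H ∧ {v, a, q} ∈ H) ∧ m ≤ w a ∧
      m ≤ w p + w q ∧ 3 * m ≤ 3 * w q + w a + w p ∧ 3 * m ≤ 3 * w p + w a + w q ∧
      5 * m ≤ 3 * w a + w p + w q
  | .S b x y z m => (b ≠ x ∧ b ≠ y ∧ b ≠ z) ∧ (x ≠ y ∧ x ≠ z ∧ y ≠ z) ∧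
      ({v, b, x} ∈ H ∧ {v, b, y} ∈ H ∧ {v, b, z} ∈ H) ∧ m ≤ w b ∧ 2 * m ≤ w x + w y + w z

instance (H : Finset (Finset ℕ)) (w : ℕ → ℕ) (v : ℕ) (g : Gad) : Decidable (g.Ok H w v) := by
  cases g <;> unfold Gad.Ok <;> infer_instance

/-- the weights `w` and the pieces `gs` certify the family `H` -/
def Good (H : Finset (Finset ℕ)) (w : List ℕ) (gs : List (List Gad)) : Prop :=
  (∃ v ∈ range w.length, 0 < w.getD v 0) ∧
  ∀ v ∈ range w.length, w.getD v 0 ≤ ((gs.getD v []).map Gad.val).sum ∧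
    (gs.getD v []).Pairwise (fun g g' => Disjoint g.supp g'.supp) ∧
    ∀ g ∈ gs.getD v [], g.Ok H (fun i => w.getD i 0) v ∧ g.supp ⊆ range w.length ∧ v ∉ g.supp

instance (H : Finset (Finset ℕ)) (w : List ℕ) (gs : List (List Gad)) : Decidable (Good H w gs) := by
  unfold Good; infer_instance

variable {α : Type*} [DecidableEq α]

/-- `G` has weights -/
def Weighted (S : Finset α) (G : Finset (Finset α)) : Prop :=
  ∃ c : α → ℝ, (∀ x, 0 ≤ c x) ∧ (∃ x ∈ S, 0 < c x) ∧
    ∀ x ∈ S, ∀ 𝒟 : Finset (Finset α), Valid S G x 𝒟 → c x * 𝒟.card ≤ bd c (S.erase x) 𝒟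

/-- pull back of weights -/
noncomputable def pull (f : ℕ → α) (N : ℕ) (w : ℕ → ℕ) (x : α) : ℝ :=
  ∑ i ∈ (range N).filter (fun i => f i = x), (w i : ℝ)

theorem pull_nonneg (f : ℕ → α) (N : ℕ) (w : ℕ → ℕ) (x : α) : 0 ≤ pull f N w x :=
  sum_nonneg fun _ _ => Nat.cast_nonneg _

theorem pull_apply {f : ℕ → α} {N : ℕ} (hf : Set.InjOn f (range N)) (w : ℕ → ℕ) {i : ℕ}
    (hi : i < N) : pull f N w (f i) = w i := by
  unfold pull
  have : (range N).filter (fun j => f j = f i) = {i} := by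
    ext j
    rw [mem_filter, mem_singleton]
    constructor
    · rintro ⟨h1, h2⟩
      exact hf (mem_coe.2 h1) (mem_coe.2 (mem_range.2 hi)) h2
    · rintro rfl
      exact ⟨mem_range.2 hi, rfl⟩
  rw [this, sum_singleton]

theorem pull_pos {f : ℕ → α} {N : ℕ} {w : ℕ → ℕ} {x : α} (h : 0 < pull f N w x) :
    ∃ i < N, f i = x := by
  by_contra hno
  push Not at hno
  have : (range N).filter (fun j => f j = x) = ∅ := by
    rw [filter_eq_empty_iff]
    intro j hj
    exact hno j (mem_range.1 hj)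
  unfold pull at h
  rw [this, sum_empty] at h
  exact lt_irrefl _ h

/-- disjoint pieces -/
theorem pieces {c : α → ℝ} (hc : ∀ x, 0 ≤ c x) {𝒟 : Finset (Finset α)} {ι : Type*}
    (K : ι → Finset α) (m : ι → ℕ) :
    ∀ (l : List ι) (L : Finset α), l.Pairwise (fun i j => Disjoint (K i) (K j)) →
      (∀ i ∈ l, K i ⊆ L ∧ (m i : ℝ) * 𝒟.card ≤ bd c (K i) 𝒟) →
      (((l.map m).sum : ℕ) : ℝ) * 𝒟.card ≤ bd c L 𝒟 := by
  intro l
  induction l with
  | nil =>
    intro L _ _
    simp only [List.map_nil, List.sum_nil, Nat.cast_zero, zero_mul]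
    exact bd_nonneg hc _ _
  | cons i l ih =>
    intro L hp h
    rw [List.pairwise_cons] at hp
    have h1 := h i (List.mem_cons_self)
    have h2 := ih (L \ K i) hp.2 (by
      intro j hj
      have h3 := h j (List.mem_cons_of_mem _ hj)
      refine ⟨?_, h3.2⟩
      intro y hy
      rw [mem_sdiff]
      exact ⟨h3.1 hy, fun hy' => (disjoint_left.1 (hp.1 j hj)) hy' hy⟩)
    rw [bd_split c h1.1]
    simp only [List.map_cons, List.sum_cons]
    push_cast
    push_cast at h2
    linarith [h1.2]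

theorem image_triple (f : ℕ → α) (v a b : ℕ) : ({v, a, b} : Finset ℕ).image f = {f v, f a, f b} := by
  rw [image_insert, image_insert, image_singleton]

/-- one piece -/
theorem piece {H : Finset (Finset ℕ)} {w : ℕ → ℕ} {N : ℕ} {f : ℕ → α}
    (hf : Set.InjOn f (range N)) {S : Finset α} {G : Finset (Finset α)}
    (hHG : ∀ e ∈ H, e.image f ∈ G) {v : ℕ} (hv : v < N) {g : Gad}
    (hg : g.Ok H w v) (hs : g.supp ⊆ range N) (hvs : v ∉ g.supp) (hG : ∀ B ∈ G, B ⊆ S) :
    g.supp.image f ⊆ S.erase (f v) ∧ ∀ 𝒟 : Finset (Finset α), Valid S G (f v) 𝒟 →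
      (g.val : ℝ) * 𝒟.card ≤ bd (pull f N w) (g.supp.image f) 𝒟 := by
  have hc := pull_nonneg f N w
  have hval : ∀ i ∈ g.supp, pull f N w (f i) = w i :=
    fun i hi => pull_apply hf w (mem_range.1 (hs hi))
  have hne : ∀ i ∈ g.supp, ∀ j ∈ g.supp, i ≠ j → f i ≠ f j := by
    intro i hi j hj hij he
    exact hij (hf (mem_coe.2 (hs hi)) (mem_coe.2 (hs hj)) he)
  have hnev : ∀ i ∈ g.supp, f i ≠ f v := by
    intro i hi he
    have := hf (mem_coe.2 (hs hi)) (mem_coe.2 (mem_range.2 hv)) he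
    rw [this] at hi
    exact hvs hi
  -- a pair of the link is not contained in a member
  have hpair : ∀ a b : ℕ, {v, a, b} ∈ H → ∀ 𝒟 : Finset (Finset α), Valid S G (f v) 𝒟 →
      ∀ D ∈ 𝒟, ¬ ({f a, f b} : Finset α) ⊆ D := by
    intro a b hab 𝒟 h𝒟 D hD hsub
    have h1 := hHG _ hab
    rw [image_triple] at h1
    refine h𝒟.2.2 D hD _ h1 (mem_insert_self _ _) ?_
    exact insert_subset_insert _ hsub
  have hS : ∀ a b : ℕ, {v, a, b} ∈ H → f a ∈ S ∧ f b ∈ S := by
    intro a b hab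
    have h1 := hG _ (hHG _ hab)
    rw [image_triple] at h1
    exact ⟨h1 (by simp), h1 (by simp)⟩
  cases g with
  | E a b m =>
    obtain ⟨hab, hH, h1, h2, h3⟩ := hg
    have ha : a ∈ (Gad.E a b m).supp := by simp [Gad.supp]
    have hb : b ∈ (Gad.E a b m).supp := by simp [Gad.supp]
    have hsupp : (Gad.E a b m).supp.image f = {f a, f b} := by
      simp [Gad.supp, image_insert]
    refine ⟨?_, ?_⟩
    · rw [hsupp]
      intro y hy
      rw [mem_insert, mem_singleton] at hy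
      rw [mem_erase]
      rcases hy with rfl | rfl
      · exact ⟨hnev a ha, (hS a b hH).1⟩
      · exact ⟨hnev b hb, (hS a b hH).2⟩
    · intro 𝒟 h𝒟
      rw [hsupp]
      refine fib h𝒟.2.1 ?_
      intro 𝒜 hd hA
      have h1' : (m : ℝ) ≤ w a := by exact_mod_cast h1
      have h2' : (m : ℝ) ≤ w b := by exact_mod_cast h2
      have h3' : (3 : ℝ) * m ≤ w a + w b := by exact_mod_cast h3
      refine edge_gadget (hne a ha b hb hab) ?_ ?_ ?_ (hc _) hd (fun A h => (hA A h).1) ?_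
      · rw [hval a ha]; exact h1'
      · rw [hval b hb]; exact h2'
      · rw [hval a ha, hval b hb]; exact h3'
      · intro h
        obtain ⟨_, D, hD, hsub⟩ := hA _ h
        exact hpair a b hH 𝒟 h𝒟 D hD hsub
  | P p a q m =>
    obtain ⟨⟨hpa, haq, hpq⟩, ⟨hH1, hH2⟩, h1, h2, h3, h4, h6⟩ := hg
    have hp' : p ∈ (Gad.P p a q m).supp := by simp [Gad.supp]
    have ha' : a ∈ (Gad.P p a q m).supp := by simp [Gad.supp]
    have hq' : q ∈ (Gad.P p a q m).supp := by simp [Gad.supp]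
    have hsupp : (Gad.P p a q m).supp.image f = {f p, f a, f q} := by
      simp [Gad.supp, image_insert]
    refine ⟨?_, ?_⟩
    · rw [hsupp]
      intro y hy
      rw [mem_insert, mem_insert, mem_singleton] at hy
      rw [mem_erase]
      rcases hy with rfl | rfl | rfl
      · exact ⟨hnev p hp', (hS p a hH1).1⟩
      · exact ⟨hnev a ha', (hS p a hH1).2⟩
      · exact ⟨hnev q hq', (hS a q hH2).2⟩
    · intro 𝒟 h𝒟
      rw [hsupp]
      refine fib h𝒟.2.1 ?_
      intro 𝒜 hd hA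
      have h1' : (m : ℝ) ≤ w a := by exact_mod_cast h1
      have h2' : (m : ℝ) ≤ w p + w q := by exact_mod_cast h2
      have h3' : (3 : ℝ) * m ≤ 3 * w q + w a + w p := by exact_mod_cast h3
      have h4' : (3 : ℝ) * m ≤ 3 * w p + w a + w q := by exact_mod_cast h4
      have h6' : (5 : ℝ) * m ≤ 3 * w a + w p + w q := by exact_mod_cast h6
      refine path_gadget (hne p hp' a ha' hpa) (hne a ha' q hq' haq) (hne p hp' q hq' hpq)
        ?_ ?_ ?_ ?_ ?_ (hc _) (hc _) (hc _) hd (fun A h => (hA A h).1) ?_ ?_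
      · rw [hval a ha']; exact h1'
      · rw [hval p hp', hval q hq']; exact h2'
      · rw [hval p hp', hval q hq', hval a ha']; exact h3'
      · rw [hval p hp', hval q hq', hval a ha']; exact h4'
      · rw [hval p hp', hval q hq', hval a ha']; exact h6'
      · intro h
        obtain ⟨_, D, hD, hsub⟩ := hA _ h
        exact hpair p a hH1 𝒟 h𝒟 D hD hsub
      · intro h
        obtain ⟨_, D, hD, hsub⟩ := hA _ h
        exact hpair a q hH2 𝒟 h𝒟 D hD hsub
  | S b x y z m =>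
    obtain ⟨⟨hbx, hby, hbz⟩, ⟨hxy, hxz, hyz⟩, ⟨hH1, hH2, hH3⟩, h1, h2⟩ := hg
    have hb' : b ∈ (Gad.S b x y z m).supp := by simp [Gad.supp]
    have hx' : x ∈ (Gad.S b x y z m).supp := by simp [Gad.supp]
    have hy' : y ∈ (Gad.S b x y z m).supp := by simp [Gad.supp]
    have hz' : z ∈ (Gad.S b x y z m).supp := by simp [Gad.supp]
    have hsupp : (Gad.S b x y z m).supp.image f = insert (f b) {f x, f y, f z} := by
      simp [Gad.supp, image_insert]
    refine ⟨?_, ?_⟩
    · rw [hsupp]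
      intro t ht
      rw [mem_insert, mem_insert, mem_insert, mem_singleton] at ht
      rw [mem_erase]
      rcases ht with rfl | rfl | rfl | rfl
      · exact ⟨hnev b hb', (hS b x hH1).1⟩
      · exact ⟨hnev x hx', (hS b x hH1).2⟩
      · exact ⟨hnev y hy', (hS b y hH2).2⟩
      · exact ⟨hnev z hz', (hS b z hH3).2⟩
    · intro 𝒟 h𝒟
      rw [hsupp]
      refine fib h𝒟.2.1 ?_
      intro 𝒜 hd hA
      have h1' : (m : ℝ) ≤ w b := by exact_mod_cast h1
      have h2' : (2 : ℝ) * m ≤ w x + w y + w z := by exact_mod_cast h2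
      refine star_gadget hc ?_ ?_ ?_ hd (fun A h => (hA A h).1) ?_
      · simp only [mem_insert, mem_singleton, not_or]
        exact ⟨hne b hb' x hx' hbx, hne b hb' y hy' hby, hne b hb' z hz' hbz⟩
      · rw [hval b hb']; exact h1'
      · rw [sum_insert, sum_pair (hne y hy' z hz' hyz), hval x hx', hval y hy', hval z hz']
        · change (2 : ℝ) * m ≤ _
          linarith
        · simp only [mem_insert, mem_singleton, not_or]
          exact ⟨hne x hx' y hy' hxy, hne x hx' z hz' hxz⟩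
      · intro t ht h
        obtain ⟨_, D, hD, hsub⟩ := hA _ h
        simp only [mem_insert, mem_singleton] at ht
        rcases ht with rfl | rfl | rfl
        · exact hpair b x hH1 𝒟 h𝒟 D hD hsub
        · exact hpair b y hH2 𝒟 h𝒟 D hD hsub
        · exact hpair b z hH3 𝒟 h𝒟 D hD hsub

/-- soundness of the certificates -/
theorem weighted_of_good {H : Finset (Finset ℕ)} {w : List ℕ} {gs : List (List Gad)}
    (hgood : Good H w gs) {f : ℕ → α} (hf : Set.InjOn f (range w.length)) {S : Finset α}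
    {G : Finset (Finset α)} (hG : ∀ B ∈ G, B ⊆ S) (hHG : ∀ e ∈ H, e.image f ∈ G) :
    Weighted S G := by
  obtain ⟨⟨v0, hv0, hpos⟩, hall⟩ := hgood
  refine ⟨pull f w.length (fun i => w.getD i 0), pull_nonneg _ _ _, ?_, ?_⟩
  · refine ⟨f v0, ?_, ?_⟩
    · obtain ⟨h1, h2, h3⟩ := hall v0 hv0
      -- some piece has an edge through `v0`
      have hne : gs.getD v0 [] ≠ [] := by
        intro h
        rw [h] at h1
        simp only [List.map_nil, List.sum_nil] at h1
        omega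
      obtain ⟨g, hg⟩ := List.exists_mem_of_ne_nil _ hne
      obtain ⟨h4, _, _⟩ := h3 g hg
      have hS : ∀ a b : ℕ, {v0, a, b} ∈ H → f v0 ∈ S := by
        intro a b hab
        have h1 := hG _ (hHG _ hab)
        rw [image_triple] at h1
        exact h1 (by simp)
      cases g with
      | E a b m => exact hS a b h4.2.1
      | P p a q m => exact hS p a h4.2.1.1
      | S b x y z m => exact hS b x h4.2.2.1.1
    · rw [pull_apply hf _ (mem_range.1 hv0)]
      exact_mod_cast hpos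
  · intro x _ 𝒟 h𝒟
    rcases (pull_nonneg f w.length (fun i => w.getD i 0) x).eq_or_lt with h0 | h0
    · rw [← h0, zero_mul]
      exact bd_nonneg (pull_nonneg _ _ _) _ _
    · obtain ⟨v, hv, rfl⟩ := pull_pos h0
      obtain ⟨h1, h2, h3⟩ := hall v (mem_range.2 hv)
      have key := pieces (c := pull f w.length (fun i => w.getD i 0)) (pull_nonneg _ _ _)
        (𝒟 := 𝒟) (fun g : Gad => g.supp.image f) Gad.val (gs.getD v []) (S.erase (f v)) (by
          refine List.Pairwise.imp_of_mem ?_ h2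
          intro g g' hg hg' hdis
          rw [disjoint_left]
          intro y hy hy'
          obtain ⟨i, hi, rfl⟩ := mem_image.1 hy
          obtain ⟨j, hj, he⟩ := mem_image.1 hy'
          have := hf (mem_coe.2 ((h3 g' hg').2.1 hj)) (mem_coe.2 ((h3 g hg).2.1 hi)) he
          rw [this] at hj
          exact disjoint_left.1 hdis hi hj) (by
          intro g hg
          obtain ⟨h5, h6⟩ := piece hf hHG hv (h3 g hg).1 (h3 g hg).2.1 (h3 g hg).2.2 hG
          exact ⟨h5, h6 𝒟 h𝒟⟩)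
      refine le_trans ?_ key
      refine mul_le_mul_of_nonneg_right ?_ (Nat.cast_nonneg _)
      rw [pull_apply hf _ hv]
      exact_mod_cast h1

/-- the frequent element -/
theorem frequent {S : Finset α} {G F : Finset (Finset α)} (hG : ∀ B ∈ G, B ⊆ S)
    (hF : ∀ A ∈ F, ∀ B ∈ F, A ∪ B ∈ F) (ha : ∀ A ∈ F, ∀ B ∈ G, A ∪ B ∈ F) (h : Weighted S G) :
    ∃ x ∈ S, F.card ≤ 2 * (F.filter (fun A => x ∈ A)).card := by
  obtain ⟨c, hc0, hpos, hc⟩ := h
  have := fc_of_weights (c := c) (S := S) (F := F) (G := G) hF hG ha hc0 hpos (by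
    intro x hx 𝒟 h𝒟
    have := hc x hx 𝒟 h𝒟
    unfold bd at this
    convert this)
  convert this

theorem weighted_of_forces [Infinite α] {S : Finset α} {G : Finset (Finset α)}
    (hG : ∀ B ∈ G, B ⊆ S)
    (hFC : ∀ F : Finset (Finset α), (∀ A ∈ F, ∀ B ∈ F, A ∪ B ∈ F) → G ⊆ F →
      ∃ x ∈ S, F.card ≤ 2 * (F.filter (fun A => x ∈ A)).card) : Weighted S G := by
  obtain ⟨c, hc0, hpos, hc⟩ := weights_of_fc hG (by
    intro F hF hGF
    have := hFC F hF hGF
    convert this)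
  refine ⟨c, hc0, hpos, ?_⟩
  intro x hx 𝒟 h𝒟
  have := hc x hx 𝒟 h𝒟
  unfold bd
  convert this

end Pool.Agent.H85A.FC
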