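import Pool.Agent.H85A.FC.Cert

set_option autoImplicit false

/-! The seven exceptional families, the seventeen configurations, and the tables for the extensions
of an exceptional family by one more triple. -/

namespace Pool.Agent.H85A.FC

open Finset

/-- the configurations with their certificates -/
def cfg : List (Finset (Finset ℕ) × List ℕ × List (List Gad)) :=
  [({{0, 1, 2}, {0, 3, 4}, {0, 5, 6}},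
    [6, 3, 3, 3, 3, 3, 3],
    [[.E 1 2 2, .E 3 4 2, .E 5 6 2],
     [.E 0 2 3],
     [.E 0 1 3],
     [.E 0 4 3],
     [.E 0 3 3],
     [.E 0 6 3],
     [.E 0 5 3]]),
   ({{0, 1, 2}, {0, 1, 3}, {0, 4, 5}},
    [72, 57, 43, 26, 36, 36],
    [[.E 4 5 24, .P 2 1 3 48],
     [.P 2 0 3 57],
     [.E 0 1 43],
     [.E 0 1 26],
     [.E 0 5 36],
     [.E 0 4 36]]),
   ({{0, 1, 2}, {2, 3, 4}, {4, 5, 0}},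
    [36, 24, 36, 21, 27, 21],
    [[.E 1 2 20, .E 4 5 16],
     [.E 0 2 24],
     [.E 0 1 20, .E 3 4 16],
     [.E 2 4 21],
     [.E 2 3 19, .E 0 5 8],
     [.E 0 4 21]]),
   ({{0, 1, 2}, {0, 1, 3}, {2, 3, 4}},
    [18, 18, 21, 15, 12],
    [[.P 2 1 3 18],
     [.P 2 0 3 18],
     [.E 0 1 12, .E 3 4 9],
     [.E 0 1 12, .E 2 4 11],
     [.E 2 3 12]]),
   ({{0, 1, 2}, {0, 1, 3}, {0, 3, 4}},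
    [1020, 870, 630, 915, 645],
    [[.E 1 2 500, .E 3 4 520],
     [.P 2 0 3 921],
     [.E 0 1 630],
     [.P 1 0 4 915],
     [.E 0 3 645]]),
   ({{0, 1, 2}, {0, 3, 4}, {1, 5, 6}, {2, 7, 8}},
    [6, 6, 6, 3, 3, 3, 3, 3, 3],
    [[.E 1 2 4, .E 3 4 2],
     [.E 0 2 4, .E 5 6 2],
     [.E 0 1 4, .E 7 8 2],
     [.E 0 4 3],
     [.E 0 3 3],
     [.E 1 6 3],
     [.E 1 5 3],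
     [.E 2 8 3],
     [.E 2 7 3]]),
   ({{0, 1, 2}, {2, 3, 4}, {4, 5, 6}, {6, 7, 0}},
    [84, 60, 96, 60, 84, 45, 51, 45],
    [[.E 1 2 52, .E 6 7 32],
     [.E 0 2 60],
     [.E 0 1 48, .E 3 4 48],
     [.E 2 4 60],
     [.E 2 3 52, .E 5 6 32],
     [.E 4 6 45],
     [.E 4 5 43, .E 0 7 8],
     [.E 0 6 45]]),
   ({{0, 1, 2}, {0, 1, 3}, {2, 4, 5}, {3, 4, 6}},
    [3, 3, 4, 4, 4, 2, 2],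
    [[.P 2 1 3 3],
     [.P 2 0 3 3],
     [.E 0 1 2, .E 4 5 2],
     [.E 0 1 2, .E 4 6 2],
     [.E 2 5 2, .E 3 6 2],
     [.E 2 4 2],
     [.E 3 4 2]]),
   ({{0, 1, 2}, {2, 3, 4}, {4, 5, 6}, {6, 7, 8}, {8, 9, 10}},
    [144, 144, 288, 216, 360, 234, 342, 174, 258, 129, 129],
    [[.E 1 2 144],
     [.E 0 2 144],
     [.E 0 1 96, .E 3 4 192],
     [.E 2 4 216],
     [.E 2 3 168, .E 5 6 192],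
     [.E 4 6 234],
     [.E 4 5 198, .E 7 8 144],
     [.E 6 8 200],
     [.E 6 7 172, .E 9 10 86],
     [.E 8 10 129],
     [.E 8 9 129]]),
   ({{0, 1, 2}, {0, 1, 3}, {3, 4, 5}, {5, 6, 7}, {7, 8, 9}},
    [72, 72, 48, 96, 60, 84, 42, 54, 27, 27],
    [[.P 2 1 3 72],
     [.P 2 0 3 72],
     [.E 0 1 48],
     [.E 0 1 48, .E 4 5 48],
     [.E 3 5 60],
     [.E 3 4 52, .E 6 7 32],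
     [.E 5 7 46],
     [.E 5 6 42, .E 8 9 12],
     [.E 7 9 27],
     [.E 7 8 27]]),
   ({{0, 1, 2}, {2, 3, 4}, {4, 5, 6}, {6, 7, 8}, {8, 9, 0}},
    [327, 249, 420, 276, 408, 216, 312, 156, 156, 156],
    [[.E 1 2 223, .E 8 9 104],
     [.E 0 2 249],
     [.E 0 1 192, .E 3 4 228],
     [.E 2 4 276],
     [.E 2 3 232, .E 5 6 176],
     [.E 4 6 240],
     [.E 4 5 208, .E 7 8 104],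
     [.E 6 8 156],
     [.E 6 7 156, .E 0 9 0],
     [.E 0 8 156]]),
   ({{0, 1, 2}, {0, 1, 3}, {0, 1, 4}},
    [3, 3, 2, 2, 2],
    [[.S 1 2 3 4 3],
     [.S 0 2 3 4 3],
     [.E 0 1 2],
     [.E 0 1 2],
     [.E 0 1 2]]),
   ({{0, 1, 2}, {0, 1, 3}, {0, 2, 3}},
    [1, 1, 1, 1],
    [[.P 2 1 3 1],
     [.P 2 0 3 1],
     [.P 1 0 3 1],
     [.P 1 0 2 1]]),
   ({{0, 1, 2}, {0, 1, 3}, {2, 4, 5}, {3, 6, 7}},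
    [6, 6, 6, 6, 3, 3, 3, 3],
    [[.P 2 1 3 6],
     [.P 2 0 3 6],
     [.E 0 1 4, .E 4 5 2],
     [.E 0 1 4, .E 6 7 2],
     [.E 2 5 3],
     [.E 2 4 3],
     [.E 3 7 3],
     [.E 3 6 3]]),
   ({{0, 1, 2}, {0, 1, 3}, {3, 4, 5}, {4, 5, 6}},
    [3, 3, 2, 4, 3, 3, 2],
    [[.P 2 1 3 3],
     [.P 2 0 3 3],
     [.E 0 1 2],
     [.E 0 1 2, .E 4 5 2],
     [.P 3 5 6 3],
     [.P 3 4 6 3],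
     [.E 4 5 2]]),
   ({{0, 1, 2}, {0, 1, 3}, {2, 4, 5}, {3, 4, 5}},
    [3, 3, 6, 6, 6, 6],
    [[.E 1 2 3],
     [.E 0 2 3],
     [.E 0 1 2, .E 4 5 4],
     [.E 0 1 2, .E 4 5 4],
     [.P 2 5 3 6],
     [.P 2 4 3 6]]),
   ({{0, 1, 2}, {0, 1, 3}, {3, 4, 5}, {5, 6, 7}, {6, 7, 8}},
    [12, 12, 8, 21, 15, 24, 18, 18, 12],
    [[.P 2 1 3 12],
     [.P 2 0 3 12],
     [.E 0 1 8],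
     [.E 0 1 8, .E 4 5 13],
     [.E 3 5 15],
     [.E 3 4 12, .E 6 7 12],
     [.P 5 7 8 18],
     [.P 5 6 8 18],
     [.E 6 7 12]])]

def typ : List (ℕ × Finset (Finset ℕ)) :=
  [(3, {{0, 1, 2}}),
   (5, {{0, 1, 2}, {2, 3, 4}}),
   (7, {{0, 1, 2}, {2, 3, 4}, {4, 5, 6}}),
   (9, {{0, 1, 2}, {2, 3, 4}, {4, 5, 6}, {6, 7, 8}}),
   (4, {{0, 1, 2}, {0, 1, 3}}),
   (6, {{0, 1, 2}, {0, 1, 3}, {3, 4, 5}}),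
   (8, {{0, 1, 2}, {0, 1, 3}, {3, 4, 5}, {5, 6, 7}})]

/-- a witness: the new triple is an old one; the new family is exceptional; it contains a
configuration -/
inductive Wit
  | x
  | t (j : ℕ) (s : List ℕ)
  | c (k : ℕ) (s : List ℕ)

/-- the triple with the old vertices `R` -/
def newT (N : ℕ) (R : Finset ℕ) : Finset ℕ := R ∪ Ico N (N + 3 - R.card)

/-- the image of a set under the map given by a list -/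
def im (s : List ℕ) (e : Finset ℕ) : Finset ℕ := e.image (fun i => s.getD i 0)

def Wit.Ok (N : ℕ) (H : Finset (Finset ℕ)) (R : Finset ℕ) : Wit → Prop
  | .x => newT N R ∈ H
  | .t j s => j < 7 ∧ s.length = (typ.getD j (0, ∅)).1 ∧ s.Nodup ∧ (∀ a ∈ s, a < N + 3 - R.card) ∧
      insert (newT N R) H = (typ.getD j (0, ∅)).2.image (im s)
  | .c k s => k < 17 ∧ s.length = (cfg.getD k (∅, [], [])).2.1.length ∧ s.Nodup ∧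
      (∀ a ∈ s, a < N + 3 - R.card) ∧
      ∀ e ∈ (cfg.getD k (∅, [], [])).1, im s e ∈ insert (newT N R) H

instance (N : ℕ) (H : Finset (Finset ℕ)) (R : Finset ℕ) (w : Wit) : Decidable (w.Ok N H R) := by
  cases w <;> unfold Wit.Ok <;> infer_instance

def tab1_0 : List Wit := [.t 1 [3, 4, 0, 1, 2], .t 1 [3, 4, 1, 0, 2], .t 1 [3, 4, 2, 0, 1]]
def tab2_0 : List (List Wit) := [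
  [],
  [.t 4 [0, 1, 3, 2]],
  [.t 4 [0, 2, 3, 1], .t 4 [1, 2, 3, 0]]]
def tab3_0 : List (List (List Wit)) := [
  [],
  [[]],
  [[],
    [.x]]]

def tab1_1 : List Wit := [.t 2 [5, 6, 0, 1, 2, 3, 4], .t 2 [5, 6, 1, 0, 2, 3, 4], .c 0 [2, 3, 4, 5, 6, 0, 1], .t 2 [5, 6, 3, 4, 2, 0, 1], .t 2 [5, 6, 4, 3, 2, 0, 1]]
def tab2_1 : List (List Wit) := [
  [],
  [.t 5 [0, 1, 5, 2, 3, 4]],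
  [.c 1 [2, 0, 5, 1, 3, 4], .c 1 [2, 1, 5, 0, 3, 4]],
  [.c 2 [2, 4, 3, 5, 0, 1], .c 2 [1, 5, 3, 4, 2, 0], .c 1 [2, 3, 5, 4, 0, 1]],
  [.c 2 [0, 5, 4, 3, 2, 1], .c 2 [2, 3, 4, 5, 1, 0], .c 1 [2, 4, 3, 5, 0, 1], .t 5 [3, 4, 5, 2, 0, 1]]]
def tab3_1 : List (List (List Wit)) := [
  [],
  [[]],
  [[],
    [.x]],
  [[],
    [.c 3 [0, 1, 3, 2, 4]],
    [.c 4 [2, 3, 4, 0, 1], .c 4 [2, 3, 4, 1, 0]]],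
  [[],
    [.c 3 [0, 1, 4, 2, 3]],
    [.c 4 [2, 4, 3, 0, 1], .c 4 [2, 4, 3, 1, 0]],
    [.c 3 [3, 4, 0, 2, 1], .c 3 [3, 4, 2, 1, 0], .x]]]

def tab1_2 : List Wit := [.t 3 [5, 6, 4, 3, 2, 1, 0, 7, 8], .t 3 [5, 6, 4, 3, 2, 0, 1, 7, 8], .c 0 [2, 3, 4, 7, 8, 0, 1], .c 5 [2, 3, 4, 0, 1, 7, 8, 5, 6], .c 0 [4, 7, 8, 5, 6, 2, 3], .t 3 [7, 8, 5, 6, 4, 3, 2, 0, 1], .t 3 [7, 8, 6, 5, 4, 3, 2, 0, 1]]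
def tab2_2 : List (List Wit) := [
  [],
  [.t 6 [0, 1, 7, 2, 3, 4, 5, 6]],
  [.c 1 [2, 0, 7, 1, 3, 4], .c 1 [2, 1, 0, 7, 3, 4]],
  [.c 2 [0, 7, 3, 4, 2, 1], .c 2 [1, 7, 3, 4, 2, 0], .c 1 [2, 3, 7, 4, 0, 1]],
  [.c 0 [4, 5, 6, 2, 3, 0, 7], .c 0 [4, 5, 6, 2, 3, 1, 7], .c 1 [2, 4, 3, 7, 0, 1], .c 1 [4, 3, 2, 7, 5, 6]],
  [.c 6 [0, 7, 5, 6, 4, 3, 2, 1], .c 6 [4, 6, 5, 7, 1, 0, 2, 3], .c 0 [2, 3, 4, 5, 7, 0, 1], .c 2 [3, 7, 5, 6, 4, 2], .c 1 [4, 5, 6, 7, 2, 3]],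
  [.c 6 [4, 5, 6, 7, 0, 1, 2, 3], .c 6 [4, 5, 6, 7, 1, 0, 2, 3], .c 0 [2, 3, 4, 6, 7, 0, 1], .c 2 [4, 5, 6, 7, 3, 2], .c 1 [4, 6, 5, 7, 2, 3], .t 6 [5, 6, 7, 4, 3, 2, 0, 1]]]
def tab3_2 : List (List (List Wit)) := [
  [],
  [[]],
  [[],
    [.x]],
  [[],
    [.c 3 [0, 1, 3, 2, 4]],
    [.c 4 [2, 3, 4, 0, 1], .c 4 [2, 3, 4, 1, 0]]],
  [[],
    [.c 0 [4, 5, 6, 0, 1, 2, 3]],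
    [.c 1 [4, 2, 3, 0, 5, 6], .c 1 [4, 2, 3, 1, 5, 6]],
    [.c 1 [4, 3, 0, 2, 5, 6], .c 1 [4, 3, 2, 1, 5, 6], .x]],
  [[],
    [.c 7 [0, 1, 2, 5, 4, 3, 6]],
    [.c 1 [2, 0, 5, 1, 3, 4], .c 1 [2, 1, 5, 0, 3, 4]],
    [.c 2 [4, 6, 5, 0, 3, 2], .c 2 [1, 5, 3, 4, 2, 0], .c 1 [2, 3, 5, 4, 0, 1]],
    [.c 1 [4, 5, 0, 6, 2, 3], .c 1 [4, 5, 6, 1, 2, 3], .c 1 [2, 4, 3, 5, 0, 1], .c 4 [4, 5, 6, 3, 2]]],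
  [[],
    [.c 7 [0, 1, 6, 2, 4, 5, 3]],
    [.c 1 [2, 0, 1, 6, 3, 4], .c 1 [2, 1, 6, 0, 3, 4]],
    [.c 2 [4, 5, 6, 0, 3, 2], .c 2 [4, 5, 6, 1, 3, 2], .c 1 [2, 3, 4, 6, 0, 1]],
    [.c 1 [4, 6, 0, 5, 2, 3], .c 1 [4, 6, 5, 1, 2, 3], .c 1 [2, 4, 6, 3, 0, 1], .c 4 [4, 6, 5, 3, 2]],
    [.c 7 [5, 6, 4, 0, 2, 3, 1], .c 7 [5, 6, 4, 1, 2, 3, 0], .c 0 [2, 3, 4, 5, 6, 0, 1], .c 3 [5, 6, 4, 3, 2], .x]]]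

def tab1_3 : List Wit := [.c 8 [9, 10, 0, 1, 2, 3, 4, 5, 6, 7, 8], .c 8 [9, 10, 1, 0, 2, 3, 4, 5, 6, 7, 8], .c 0 [2, 9, 10, 3, 4, 0, 1], .c 5 [2, 3, 4, 0, 1, 9, 10, 5, 6], .c 0 [4, 2, 3, 9, 10, 5, 6], .c 5 [4, 5, 6, 2, 3, 9, 10, 7, 8], .c 0 [6, 7, 8, 4, 5, 9, 10], .c 8 [9, 10, 7, 8, 6, 5, 4, 3, 2, 0, 1], .c 8 [0, 1, 2, 3, 4, 5, 6, 7, 8, 9, 10]]
def tab2_3 : List (List Wit) := [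
  [],
  [.c 9 [0, 1, 9, 2, 3, 4, 5, 6, 7, 8]],
  [.c 1 [2, 0, 1, 9, 3, 4], .c 1 [2, 1, 9, 0, 3, 4]],
  [.c 2 [2, 4, 3, 9, 0, 1], .c 2 [2, 4, 3, 9, 1, 0], .c 1 [2, 3, 9, 4, 0, 1]],
  [.c 0 [4, 2, 3, 0, 9, 5, 6], .c 0 [4, 2, 3, 1, 9, 5, 6], .c 1 [2, 4, 3, 9, 0, 1], .c 1 [4, 3, 2, 9, 5, 6]],
  [.c 5 [4, 5, 6, 2, 3, 0, 9, 7, 8], .c 5 [4, 5, 6, 2, 3, 1, 9, 7, 8], .c 0 [2, 3, 4, 0, 1, 5, 9], .c 2 [3, 2, 4, 6, 5, 9], .c 1 [4, 5, 6, 9, 2, 3]],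
  [.c 0 [6, 0, 9, 7, 8, 4, 5], .c 0 [6, 1, 9, 7, 8, 4, 5], .c 0 [2, 3, 4, 6, 9, 0, 1], .c 0 [6, 7, 8, 4, 5, 3, 9], .c 1 [4, 6, 9, 5, 2, 3], .c 1 [6, 5, 9, 4, 7, 8]],
  [.c 10 [2, 3, 4, 5, 6, 8, 7, 9, 0, 1], .c 10 [1, 9, 7, 8, 6, 5, 4, 3, 2, 0], .c 0 [2, 3, 4, 0, 1, 7, 9], .c 5 [2, 3, 4, 0, 1, 7, 9, 5, 6], .c 0 [4, 2, 3, 7, 9, 5, 6], .c 2 [5, 9, 7, 8, 6, 4], .c 1 [6, 7, 9, 8, 4, 5]],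
  [.c 10 [2, 3, 4, 5, 6, 7, 8, 9, 0, 1], .c 10 [2, 3, 4, 5, 6, 7, 8, 9, 1, 0], .c 0 [2, 3, 4, 0, 1, 8, 9], .c 5 [2, 3, 4, 0, 1, 8, 9, 5, 6], .c 0 [4, 2, 3, 8, 9, 5, 6], .c 2 [5, 9, 8, 7, 6, 4], .c 1 [6, 8, 9, 7, 4, 5], .c 9 [7, 8, 9, 6, 5, 4, 3, 2, 0, 1]]]
def tab3_3 : List (List (List Wit)) := [
  [],
  [[]],
  [[],
    [.x]],
  [[],
    [.c 3 [0, 1, 2, 3, 4]],
    [.c 4 [2, 3, 4, 0, 1], .c 4 [2, 3, 4, 1, 0]]],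
  [[],
    [.c 0 [4, 0, 1, 2, 3, 5, 6]],
    [.c 1 [4, 2, 3, 0, 5, 6], .c 1 [4, 2, 3, 1, 5, 6]],
    [.c 1 [4, 3, 0, 2, 5, 6], .c 1 [4, 3, 2, 1, 5, 6], .x]],
  [[],
    [.c 5 [4, 5, 6, 2, 3, 0, 1, 7, 8]],
    [.c 1 [2, 0, 1, 5, 3, 4], .c 1 [2, 1, 0, 5, 3, 4]],
    [.c 2 [2, 4, 3, 5, 0, 1], .c 2 [1, 5, 3, 4, 2, 0], .c 1 [2, 3, 4, 5, 0, 1]],
    [.c 1 [4, 5, 0, 6, 2, 3], .c 1 [4, 5, 1, 6, 2, 3], .c 1 [2, 4, 3, 5, 0, 1], .c 4 [4, 3, 2, 5, 6]]],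
  [[],
    [.c 0 [6, 7, 8, 0, 1, 4, 5]],
    [.c 0 [6, 0, 2, 7, 8, 4, 5], .c 0 [6, 7, 8, 4, 5, 1, 2]],
    [.c 0 [6, 0, 3, 7, 8, 4, 5], .c 0 [6, 1, 3, 7, 8, 4, 5], .c 0 [6, 2, 3, 7, 8, 4, 5]],
    [.c 1 [4, 6, 0, 5, 2, 3], .c 1 [4, 6, 5, 1, 2, 3], .c 1 [2, 4, 6, 3, 0, 1], .c 1 [6, 4, 3, 5, 7, 8]],
    [.c 1 [6, 5, 0, 4, 7, 8], .c 1 [6, 5, 4, 1, 7, 8], .c 0 [2, 3, 4, 0, 1, 5, 6], .c 1 [6, 5, 3, 4, 7, 8], .x]],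
  [[],
    [.c 13 [0, 1, 7, 2, 6, 8, 3, 4]],
    [.c 1 [2, 0, 1, 7, 3, 4], .c 1 [2, 1, 0, 7, 3, 4]],
    [.c 2 [2, 4, 3, 7, 0, 1], .c 2 [2, 4, 3, 7, 1, 0], .c 1 [2, 3, 4, 7, 0, 1]],
    [.c 0 [4, 2, 3, 5, 6, 0, 7], .c 0 [4, 2, 3, 1, 7, 5, 6], .c 1 [2, 4, 3, 7, 0, 1], .c 1 [4, 3, 2, 7, 5, 6]],
    [.c 2 [6, 8, 7, 0, 5, 4], .c 2 [6, 8, 7, 1, 5, 4], .c 0 [2, 5, 7, 3, 4, 0, 1], .c 2 [3, 2, 4, 6, 5, 7], .c 1 [4, 5, 6, 7, 2, 3]],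
    [.c 1 [6, 7, 0, 8, 4, 5], .c 1 [6, 7, 1, 8, 4, 5], .c 0 [2, 3, 4, 6, 7, 0, 1], .c 1 [6, 7, 8, 3, 4, 5], .c 1 [4, 6, 7, 5, 2, 3], .c 4 [6, 7, 8, 5, 4]]],
  [[],
    [.c 13 [0, 1, 2, 8, 3, 4, 6, 7]],
    [.c 1 [2, 0, 8, 1, 3, 4], .c 1 [2, 1, 0, 8, 3, 4]],
    [.c 2 [2, 4, 3, 8, 0, 1], .c 2 [2, 4, 3, 8, 1, 0], .c 1 [2, 3, 4, 8, 0, 1]],
    [.c 0 [4, 2, 3, 5, 6, 0, 8], .c 0 [4, 2, 3, 1, 8, 5, 6], .c 1 [2, 4, 3, 8, 0, 1], .c 1 [4, 3, 2, 8, 5, 6]],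
    [.c 2 [6, 7, 8, 0, 5, 4], .c 2 [5, 1, 8, 7, 6, 4], .c 0 [2, 3, 4, 0, 1, 5, 8], .c 2 [3, 2, 4, 6, 5, 8], .c 1 [4, 5, 6, 8, 2, 3]],
    [.c 1 [6, 8, 7, 0, 4, 5], .c 1 [6, 8, 1, 7, 4, 5], .c 0 [2, 3, 4, 0, 1, 6, 8], .c 1 [6, 8, 3, 7, 4, 5], .c 1 [4, 6, 8, 5, 2, 3], .c 4 [6, 8, 7, 5, 4]],
    [.c 13 [7, 8, 0, 6, 1, 2, 4, 5], .c 13 [7, 8, 6, 1, 4, 5, 0, 2], .c 0 [2, 3, 4, 0, 1, 7, 8], .c 5 [2, 3, 4, 0, 1, 7, 8, 5, 6], .c 0 [4, 2, 3, 7, 8, 5, 6], .c 3 [7, 8, 5, 6, 4], .x]]]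

def tab1_4 : List Wit := [.c 1 [0, 1, 3, 2, 4, 5], .c 1 [1, 0, 3, 2, 4, 5], .t 5 [0, 1, 3, 2, 4, 5], .t 5 [0, 1, 2, 3, 4, 5]]
def tab2_4 : List (List Wit) := [
  [],
  [.c 11 [0, 1, 4, 3, 2]],
  [.c 4 [0, 2, 4, 1, 3], .c 4 [1, 0, 3, 2, 4]],
  [.c 4 [0, 3, 4, 1, 2], .c 4 [1, 3, 4, 0, 2], .c 3 [0, 1, 3, 2, 4]]]
def tab3_4 : List (List (List Wit)) := [
  [],
  [[]],
  [[],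
    [.x]],
  [[],
    [.x],
    [.c 12 [0, 1, 3, 2], .c 12 [1, 2, 3, 0]]]]

def tab1_5 : List Wit := [.c 1 [0, 1, 3, 2, 6, 7], .c 1 [1, 0, 3, 2, 6, 7], .c 13 [0, 1, 3, 2, 4, 5, 6, 7], .c 0 [3, 4, 5, 6, 7, 0, 1], .t 6 [0, 1, 2, 3, 5, 4, 6, 7], .t 6 [0, 1, 2, 3, 4, 5, 6, 7]]
def tab2_5 : List (List Wit) := [
  [],
  [.c 11 [0, 1, 3, 6, 2]],
  [.c 4 [0, 1, 3, 2, 6], .c 4 [1, 0, 3, 2, 6]],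
  [.c 1 [3, 0, 6, 1, 4, 5], .c 1 [3, 1, 6, 0, 4, 5], .c 0 [3, 4, 5, 0, 1, 2, 6]],
  [.c 1 [0, 1, 3, 2, 4, 6], .c 1 [1, 0, 3, 2, 4, 6], .c 7 [0, 1, 3, 2, 4, 5, 6], .c 1 [3, 4, 5, 6, 0, 1]],
  [.c 1 [0, 1, 3, 2, 5, 6], .c 1 [1, 0, 3, 2, 5, 6], .c 7 [0, 1, 3, 2, 5, 4, 6], .c 1 [3, 5, 4, 6, 0, 1], .c 14 [4, 5, 6, 3, 0, 1, 2]]]
def tab3_5 : List (List (List Wit)) := [
  [],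
  [[]],
  [[],
    [.x]],
  [[],
    [.x],
    [.c 1 [3, 0, 1, 2, 4, 5], .c 1 [3, 1, 2, 0, 4, 5]]],
  [[],
    [.c 3 [0, 1, 4, 3, 5]],
    [.c 2 [3, 5, 4, 2, 0, 1], .c 2 [3, 5, 4, 2, 1, 0]],
    [.c 4 [3, 4, 5, 0, 1], .c 4 [3, 4, 5, 1, 0], .c 1 [3, 4, 5, 2, 0, 1]]],
  [[],
    [.c 3 [0, 1, 3, 5, 4]],
    [.c 2 [3, 4, 5, 2, 0, 1], .c 2 [3, 4, 5, 2, 1, 0]],
    [.c 4 [3, 5, 4, 0, 1], .c 4 [3, 5, 4, 1, 0], .c 1 [3, 5, 4, 2, 0, 1]],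
    [.c 1 [0, 1, 3, 2, 4, 5], .c 1 [1, 0, 3, 2, 4, 5], .c 15 [4, 5, 3, 2, 0, 1], .x]]]

def tab1_6 : List Wit := [.c 1 [0, 1, 2, 3, 8, 9], .c 1 [1, 0, 2, 3, 8, 9], .c 13 [0, 1, 2, 3, 8, 9, 4, 5], .c 0 [3, 4, 5, 8, 9, 0, 1], .c 5 [3, 4, 5, 0, 1, 8, 9, 6, 7], .c 0 [5, 8, 9, 6, 7, 3, 4], .c 9 [0, 1, 2, 3, 4, 5, 7, 6, 8, 9], .c 9 [0, 1, 2, 3, 4, 5, 6, 7, 8, 9]]
def tab2_6 : List (List Wit) := [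
  [],
  [.c 11 [0, 1, 2, 8, 3]],
  [.c 4 [0, 2, 8, 1, 3], .c 4 [1, 2, 8, 0, 3]],
  [.c 1 [3, 0, 8, 1, 4, 5], .c 1 [3, 1, 8, 0, 4, 5], .c 0 [3, 2, 8, 4, 5, 0, 1]],
  [.c 1 [0, 1, 2, 3, 4, 8], .c 1 [1, 0, 2, 3, 4, 8], .c 5 [3, 4, 5, 0, 1, 2, 8, 6, 7], .c 1 [3, 4, 5, 8, 0, 1]],
  [.c 0 [5, 6, 7, 3, 4, 0, 8], .c 0 [5, 1, 8, 6, 7, 3, 4], .c 0 [5, 6, 7, 3, 4, 2, 8], .c 1 [3, 5, 8, 4, 0, 1], .c 1 [5, 4, 3, 8, 6, 7]],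
  [.c 1 [0, 1, 2, 3, 6, 8], .c 1 [1, 0, 2, 3, 6, 8], .c 13 [0, 1, 2, 3, 6, 8, 4, 5], .c 0 [3, 6, 8, 4, 5, 0, 1], .c 2 [5, 7, 6, 8, 4, 3], .c 1 [5, 6, 8, 7, 3, 4]],
  [.c 1 [0, 1, 2, 3, 7, 8], .c 1 [1, 0, 2, 3, 7, 8], .c 13 [0, 1, 2, 3, 7, 8, 4, 5], .c 0 [3, 7, 8, 4, 5, 0, 1], .c 2 [4, 8, 7, 6, 5, 3], .c 1 [5, 7, 8, 6, 3, 4], .c 16 [0, 1, 2, 3, 4, 5, 6, 7, 8]]]
def tab3_6 : List (List (List Wit)) := [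
  [],
  [[]],
  [[],
    [.x]],
  [[],
    [.x],
    [.c 1 [3, 0, 2, 1, 4, 5], .c 1 [3, 1, 2, 0, 4, 5]]],
  [[],
    [.c 3 [0, 1, 4, 3, 5]],
    [.c 2 [0, 2, 4, 5, 3, 1], .c 2 [1, 2, 4, 5, 3, 0]],
    [.c 4 [0, 3, 4, 1, 2], .c 4 [1, 0, 2, 3, 4], .c 1 [3, 4, 2, 5, 0, 1]]],
  [[],
    [.c 0 [5, 0, 1, 6, 7, 3, 4]],
    [.c 0 [5, 0, 2, 6, 7, 3, 4], .c 0 [5, 1, 2, 6, 7, 3, 4]],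
    [.c 1 [5, 3, 0, 4, 6, 7], .c 1 [5, 3, 1, 4, 6, 7], .c 1 [3, 5, 2, 4, 0, 1]],
    [.c 1 [0, 1, 2, 3, 4, 5], .c 1 [1, 0, 2, 3, 4, 5], .c 1 [5, 4, 2, 3, 6, 7], .x]],
  [[],
    [.c 7 [0, 1, 6, 3, 5, 7, 4]],
    [.c 4 [0, 2, 6, 1, 3], .c 4 [1, 2, 6, 0, 3]],
    [.c 1 [3, 0, 6, 1, 4, 5], .c 1 [3, 1, 6, 0, 4, 5], .c 0 [3, 2, 6, 4, 5, 0, 1]],
    [.c 1 [0, 1, 2, 3, 4, 6], .c 1 [1, 0, 2, 3, 4, 6], .c 2 [4, 2, 6, 7, 5, 3], .c 1 [3, 4, 6, 5, 0, 1]],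
    [.c 1 [0, 1, 2, 3, 5, 6], .c 1 [1, 0, 2, 3, 5, 6], .c 1 [5, 6, 7, 2, 3, 4], .c 1 [3, 5, 6, 4, 0, 1], .c 4 [5, 6, 7, 4, 3]]],
  [[],
    [.c 7 [0, 1, 7, 3, 5, 6, 4]],
    [.c 4 [0, 2, 7, 1, 3], .c 4 [1, 2, 7, 0, 3]],
    [.c 1 [3, 0, 7, 1, 4, 5], .c 1 [3, 1, 7, 0, 4, 5], .c 0 [3, 2, 7, 4, 5, 0, 1]],
    [.c 1 [0, 1, 2, 3, 4, 7], .c 1 [1, 0, 2, 3, 4, 7], .c 2 [5, 6, 7, 2, 4, 3], .c 1 [3, 4, 7, 5, 0, 1]],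
    [.c 1 [0, 1, 2, 3, 5, 7], .c 1 [1, 0, 2, 3, 5, 7], .c 1 [5, 7, 2, 6, 3, 4], .c 1 [3, 5, 7, 4, 0, 1], .c 4 [5, 7, 6, 4, 3]],
    [.c 1 [0, 1, 2, 3, 6, 7], .c 1 [1, 0, 2, 3, 6, 7], .c 13 [6, 7, 2, 5, 0, 1, 3, 4], .c 0 [3, 4, 5, 0, 1, 6, 7], .c 3 [6, 7, 4, 5, 3], .x]]]

/-- the tables are correct -/
def Tab (N : ℕ) (H : Finset (Finset ℕ)) (t1 : List Wit) (t2 : List (List Wit))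
    (t3 : List (List (List Wit))) : Prop :=
  (∀ i < N, (t1.getD i .x).Ok N H {i}) ∧
  (∀ i < N, ∀ j < i, ((t2.getD i []).getD j .x).Ok N H {i, j}) ∧
  (∀ i < N, ∀ j < i, ∀ k < j, (((t3.getD i []).getD j []).getD k .x).Ok N H {i, j, k})

instance (N : ℕ) (H : Finset (Finset ℕ)) (t1 : List Wit) (t2 : List (List Wit))
    (t3 : List (List (List Wit))) : Decidable (Tab N H t1 t2 t3) := by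
  unfold Tab; infer_instance

theorem cfg_good : ∀ p ∈ cfg, Good p.1 p.2.1 p.2.2 := by decide +kernel

theorem tab_0 : Tab (typ.getD 0 (0, ∅)).1 (typ.getD 0 (0, ∅)).2 tab1_0 tab2_0 tab3_0 := by
  decide +kernel

theorem tab_1 : Tab (typ.getD 1 (0, ∅)).1 (typ.getD 1 (0, ∅)).2 tab1_1 tab2_1 tab3_1 := by
  decide +kernel

theorem tab_2 : Tab (typ.getD 2 (0, ∅)).1 (typ.getD 2 (0, ∅)).2 tab1_2 tab2_2 tab3_2 := by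
  decide +kernel

theorem tab_3 : Tab (typ.getD 3 (0, ∅)).1 (typ.getD 3 (0, ∅)).2 tab1_3 tab2_3 tab3_3 := by
  decide +kernel

theorem tab_4 : Tab (typ.getD 4 (0, ∅)).1 (typ.getD 4 (0, ∅)).2 tab1_4 tab2_4 tab3_4 := by
  decide +kernel

theorem tab_5 : Tab (typ.getD 5 (0, ∅)).1 (typ.getD 5 (0, ∅)).2 tab1_5 tab2_5 tab3_5 := by
  decide +kernel

theorem tab_6 : Tab (typ.getD 6 (0, ∅)).1 (typ.getD 6 (0, ∅)).2 tab1_6 tab2_6 tab3_6 := by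
  decide +kernel

end Pool.Agent.H85A.FC
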