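import Pool.Agent.H85A.FC.Neg

set_option autoImplicit false

/-! The classification, and the thresholds. -/

namespace Pool.Agent.H85A.FC

open Finset Pool.Agent.N188.FC

variable {α : Type*} [DecidableEq α]

/-- connected components -/
def Comp (G C : Finset (Finset α)) : Prop :=
  C ⊆ G ∧ Conn C ∧ ∀ X ∈ C, ∀ Y ∈ G, (X ∩ Y).Nonempty → Y ∈ C

theorem exists_comp {G : Finset (Finset α)} {B : Finset α} (hB : B ∈ G) :
    ∃ C, Comp G C ∧ B ∈ C := by
  classical
  set P := G.powerset.filter (fun C => B ∈ C ∧ ∀ X ∈ C, ∀ Y ∈ G, (X ∩ Y).Nonempty → Y ∈ C) with hP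
  have hmem : ∀ C, C ∈ P ↔ C ⊆ G ∧ B ∈ C ∧ ∀ X ∈ C, ∀ Y ∈ G, (X ∩ Y).Nonempty → Y ∈ C := by
    intro C; simp only [hP, mem_filter, mem_powerset]
  have hne : P.Nonempty := ⟨G, by rw [hmem]; exact ⟨Subset.rfl, hB, fun _ _ Y hY _ => hY⟩⟩
  obtain ⟨C, hC, hmin⟩ := exists_min_image P card hne
  rw [hmem] at hC
  obtain ⟨hCG, hBC, hcl⟩ := hC
  refine ⟨C, ⟨hCG, ⟨⟨B, hBC⟩, ?_⟩, hcl⟩, hBC⟩
  intro A hAC hAne hA
  by_cases hBA : B ∈ A
  · have hAP : A ∈ P := by
      rw [hmem]
      refine ⟨hAC.trans hCG, hBA, ?_⟩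
      intro X hX Y hY hXY
      exact hA X hX Y (hcl X (hAC hX) Y hY hXY) hXY
    exact eq_of_subset_of_card_le hAC (hmin A hAP)
  · exfalso
    have hCA : C \ A ∈ P := by
      rw [hmem]
      refine ⟨sdiff_subset.trans hCG, mem_sdiff.2 ⟨hBC, hBA⟩, ?_⟩
      intro X hX Y hY hXY
      rw [mem_sdiff] at hX ⊢
      have h1 := hcl X hX.1 Y hY hXY
      refine ⟨h1, fun hYA => hX.2 (hA Y hYA X hX.1 ?_)⟩
      rw [inter_comm]; exact hXY
    have h2 := hmin _ hCA
    have h3 : (C \ A).card < C.card := by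
      rw [card_sdiff_of_subset hAC]
      have h4 := card_pos.2 hAne
      have h5 := card_le_card hAC
      omega
    omega

theorem weighted_iff {S : Finset α} {G : Finset (Finset α)} (hG : ∀ B ∈ G, B ⊆ S)
    (h3 : ∀ B ∈ G, B.card = 3) :
    Weighted S G ↔ ∃ C, Comp G C ∧ ¬ ∃ j < 7, Like (typ.getD j (0, ∅)) C := by
  constructor
  · rintro ⟨c, hc0, ⟨x, hx, hpos⟩, hc⟩
    by_contra hno
    push Not at hno
    by_cases hfree : ∀ B ∈ G, x ∉ B
    · exact absurd (zero_of_free hc0 hc hx hfree) (ne_of_gt hpos)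
    · push Not at hfree
      obtain ⟨B, hB, hxB⟩ := hfree
      obtain ⟨C, hC, hBC⟩ := exists_comp hB
      obtain ⟨j, hj, hlike⟩ := hno C hC
      exact absurd (zero_of_like hj hlike hG hC.1 hC.2.2 hc0 hc B hBC x hxB) (ne_of_gt hpos)
  · rintro ⟨C, hC, hno⟩
    rcases classify hC.2.1 (fun e he => h3 e (hC.1 he)) with h | h
    · exact absurd h hno
    · exact (h.mono hC.1).weighted hG

theorem hasCfg_iff {S : Finset α} {G : Finset (Finset α)} (hG : ∀ B ∈ G, B ⊆ S)
    (h3 : ∀ B ∈ G, B.card = 3) : Weighted S G ↔ HasCfg G := by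
  rw [weighted_iff hG h3]
  constructor
  · rintro ⟨C, hC, hno⟩
    rcases classify hC.2.1 (fun e he => h3 e (hC.1 he)) with h | h
    · exact absurd h hno
    · exact h.mono hC.1
  · intro h
    exact (weighted_iff hG h3).1 (h.weighted hG)

theorem cfg_card : ∀ p ∈ cfg, p.1.card ≤ 5 := by decide +kernel

/-- a subfamily with at most five members -/
theorem HasCfg.five {G : Finset (Finset α)} (h : HasCfg G) :
    ∃ C ⊆ G, C.card ≤ 5 ∧ HasCfg C := by
  obtain ⟨p, hp, f, hf, h⟩ := h
  refine ⟨p.1.image (fun e => e.image f), ?_, card_image_le.trans (cfg_card p hp), p, hp, f, hf,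
    fun e he => mem_image_of_mem _ he⟩
  intro B hB
  obtain ⟨e, he, rfl⟩ := mem_image.1 hB
  exact h e he

/-- members with at most two elements -/
theorem weighted_of_small {S : Finset α} {G : Finset (Finset α)} (hG : ∀ B ∈ G, B ⊆ S)
    {B : Finset α} (hB : B ∈ G) (hne : B.Nonempty) (h2 : B.card ≤ 2) : Weighted S G := by
  classical
  obtain ⟨c, hcd⟩ : ∃ c : α → ℝ, ∀ x, c x = if x ∈ B then 1 else 0 := ⟨_, fun _ => rfl⟩
  have hc : ∀ x, (0 : ℝ) ≤ c x := fun x => by rw [hcd]; split_ifs <;> norm_num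
  have hc1 : ∀ x ∈ B, c x = 1 := fun x hx => by rw [hcd, if_pos hx]
  have hc0 : ∀ x ∉ B, c x = 0 := fun x hx => by rw [hcd, if_neg hx]
  refine ⟨c, hc, ?_, ?_⟩
  · obtain ⟨x, hx⟩ := hne
    exact ⟨x, hG B hB hx, by rw [hc1 x hx]; norm_num⟩
  · intro x hx 𝒟 h𝒟
    by_cases hxB : x ∈ B
    · have hno : ∀ D ∈ 𝒟, ¬ B ⊆ insert x D := fun D hD => h𝒟.2.2 D hD B hB hxB
      rw [hc1 x hxB, one_mul]
      by_cases h1 : B = {x}
      · have : 𝒟 = ∅ := by
          rw [eq_empty_iff_forall_notMem]
          intro D hD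
          apply hno D hD
          rw [h1, singleton_subset_iff]
          exact mem_insert_self x D
        rw [this, card_empty, Nat.cast_zero]
        exact bd_nonneg hc _ _
      · obtain ⟨y, hy⟩ : ∃ y ∈ B, y ≠ x := by
          by_contra h
          push Not at h
          exact h1 (eq_singleton_iff_unique_mem.2 ⟨hxB, h⟩)
        have hB2 : B = {x, y} := by
          refine (eq_of_subset_of_card_le ?_ ?_).symm
          · intro z hz
            rw [mem_insert, mem_singleton] at hz
            rcases hz with rfl | rfl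
            · exact hxB
            · exact hy.1
          · rw [card_pair hy.2.symm]; exact h2
        have hyD : ∀ D ∈ 𝒟, y ∉ D ∧ insert y D ∉ 𝒟 := by
          have h5 : ∀ D ∈ 𝒟, y ∉ D := by
            intro D hD hyD
            apply hno D hD
            rw [hB2]
            intro z hz
            rw [mem_insert, mem_singleton] at hz
            rcases hz with rfl | rfl
            · exact mem_insert_self _ _
            · exact mem_insert_of_mem hyD
          intro D hD
          exact ⟨h5 D hD, fun h => h5 _ h (mem_insert_self y D)⟩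
        unfold bd
        rw [← mul_one (𝒟.card : ℝ), ← nsmul_eq_mul, ← sum_const]
        refine sum_le_sum fun D hD => ?_
        have h6 : y ∈ (S.erase x).filter (fun k => k ∉ D ∧ insert k D ∉ 𝒟) := by
          rw [mem_filter, mem_erase]
          exact ⟨⟨hy.2, hG B hB hy.1⟩, hyD D hD⟩
        rw [← hc1 y hy.1]
        exact single_le_sum (f := c) (fun k _ => hc k) h6
    · rw [hc0 x hxB, zero_mul]
      exact bd_nonneg hc _ _

/-- adding over the components -/
theorem add_comp (a b : ℕ) : ∀ (n : ℕ) (G : Finset (Finset α)), G.card = n →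
    (∀ C, Comp G C → a * C.card ≤ b * (C.sup id).card) → a * G.card ≤ b * (G.sup id).card := by
  classical
  intro n
  induction n using Nat.strong_induction_on with
  | _ n ih =>
    intro G hn h
    rcases G.eq_empty_or_nonempty with rfl | ⟨B, hB⟩
    · simp
    obtain ⟨C, hC, hBC⟩ := exists_comp hB
    have h1 := h C hC
    have hCc : 0 < C.card := card_pos.2 ⟨B, hBC⟩
    have hle := card_le_card hC.1
    have hGC : (G \ C).card = G.card - C.card := card_sdiff_of_subset hC.1
    have hsep : ∀ X ∈ C, ∀ Y ∈ G \ C, Disjoint X Y := by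
      intro X hX Y hY
      rw [mem_sdiff] at hY
      rw [disjoint_iff_inter_eq_empty]
      by_contra hne
      exact hY.2 (hC.2.2 X hX Y hY.1 (nonempty_iff_ne_empty.2 hne))
    have h2 := ih (G \ C).card (by omega) (G \ C) rfl (by
      intro C' hC'
      refine h C' ⟨hC'.1.trans sdiff_subset, hC'.2.1, ?_⟩
      intro X hX Y hY hXY
      refine hC'.2.2 X hX Y (mem_sdiff.2 ⟨hY, fun hYC => ?_⟩) hXY
      have h3 := hsep Y hYC X (hC'.1 hX)
      rw [disjoint_iff_inter_eq_empty, inter_comm] at h3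
      rw [h3] at hXY
      exact not_nonempty_empty hXY)
    have h3 : G.sup id = C.sup id ∪ (G \ C).sup id := by
      conv_lhs => rw [← union_sdiff_of_subset hC.1]
      rw [sup_union]
      rfl
    have h4 : Disjoint (C.sup id) ((G \ C).sup id) := by
      rw [disjoint_left]
      intro y hy hy'
      rw [mem_sup] at hy hy'
      obtain ⟨X, hX, hyX⟩ := hy
      obtain ⟨Y, hY, hyY⟩ := hy'
      exact disjoint_left.1 (hsep X hX Y hY) hyX hyY
    rw [h3, card_union_of_disjoint h4]
    have h5 : G.card = C.card + (G \ C).card := by omega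
    rw [h5]
    nlinarith

theorem typ_ratio : ∀ j < 7, 2 * (typ.getD j (0, ∅)).2.card ≤ (typ.getD j (0, ∅)).1 := by
  decide +kernel

theorem typ_ratio9 : ∀ j < 4, 9 * (typ.getD j (0, ∅)).2.card ≤ 4 * (typ.getD j (0, ∅)).1 := by
  decide +kernel

theorem typ_nonlinear : ∀ j, 4 ≤ j → j < 7 → ∃ e ∈ (typ.getD j (0, ∅)).2,
    ∃ e' ∈ (typ.getD j (0, ∅)).2, e ≠ e' ∧ 2 ≤ (e ∩ e').card := by
  intro j h4 h7
  interval_cases j <;> decide +kernel

theorem like_sup {j : ℕ} (hj : j < 7) {f : ℕ → α}
    (hf : Set.InjOn f (range (typ.getD j (0, ∅)).1)) {C : Finset (Finset α)}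
    (hC : C = (typ.getD j (0, ∅)).2.image (fun e => e.image f)) :
    (C.sup id).card = (typ.getD j (0, ∅)).1 ∧ C.card ≤ (typ.getD j (0, ∅)).2.card := by
  classical
  have h1 : C.sup id = (range (typ.getD j (0, ∅)).1).image f := by
    ext y
    rw [mem_sup, mem_image]
    constructor
    · rintro ⟨X, hX, hyX⟩
      rw [hC] at hX
      obtain ⟨e, he, rfl⟩ := mem_image.1 hX
      obtain ⟨k, hk, rfl⟩ := mem_image.1 hyX
      exact ⟨k, typ_sub j hj e he hk, rfl⟩
    · rintro ⟨k, hk, rfl⟩
      obtain ⟨e, he, hke⟩ := typ_cover j hj k hk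
      exact ⟨e.image f, by rw [hC]; exact mem_image_of_mem _ he, mem_image_of_mem f hke⟩
  refine ⟨?_, by rw [hC]; exact card_image_le⟩
  rw [h1, card_image_of_injOn hf, card_range]

/-- more than half -/
theorem half {S : Finset α} {G : Finset (Finset α)} (hG : ∀ B ∈ G, B ⊆ S)
    (h3 : ∀ B ∈ G, B.card = 3) (h : S.card < 2 * G.card) : Weighted S G := by
  rw [weighted_iff hG h3]
  by_contra hno
  push Not at hno
  have h1 := add_comp 2 1 G.card G rfl (by
    intro C hC
    obtain ⟨j, hj, f, hf, hCf⟩ := hno C hC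
    obtain ⟨h4, h5⟩ := like_sup hj hf hCf
    have := typ_ratio j hj
    omega)
  have h2 : (G.sup id).card ≤ S.card := card_le_card (Finset.sup_le hG)
  omega

/-- linear families -/
theorem linear {S : Finset α} {G : Finset (Finset α)} (hG : ∀ B ∈ G, B ⊆ S)
    (h3 : ∀ B ∈ G, B.card = 3) (hlin : ∀ A ∈ G, ∀ B ∈ G, A ≠ B → (A ∩ B).card ≤ 1)
    (h : 4 * S.card < 9 * G.card) : Weighted S G := by
  classical
  rw [weighted_iff hG h3]
  by_contra hno
  push Not at hno
  have h1 := add_comp 9 4 G.card G rfl (by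
    intro C hC
    obtain ⟨j, hj, f, hf, hCf⟩ := hno C hC
    obtain ⟨h4, h5⟩ := like_sup hj hf hCf
    have hj4 : j < 4 := by
      by_contra hj4
      push Not at hj4
      obtain ⟨e, he, e', he', hne, h2⟩ := typ_nonlinear j hj4 hj
      have hsub := typ_sub j hj
      have he1 : e.image f ∈ C := by rw [hCf]; exact mem_image_of_mem _ he
      have he2 : e'.image f ∈ C := by rw [hCf]; exact mem_image_of_mem _ he'
      have hinj : ∀ A ⊆ range (typ.getD j (0, ∅)).1, ∀ B ⊆ range (typ.getD j (0, ∅)).1,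
          A.image f = B.image f → A = B := by
        have key : ∀ A ⊆ range (typ.getD j (0, ∅)).1, ∀ B ⊆ range (typ.getD j (0, ∅)).1,
            A.image f = B.image f → A ⊆ B := by
          intro A hA B hB hAB k hk
          have : f k ∈ B.image f := by rw [← hAB]; exact mem_image_of_mem f hk
          obtain ⟨k', hk', he⟩ := mem_image.1 this
          have := hf (mem_coe.2 (hB hk')) (mem_coe.2 (hA hk)) he
          rwa [← this]
        intro A hA B hB hAB
        exact Subset.antisymm (key A hA B hB hAB) (key B hB A hA hAB.symm)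
      have h6 := hlin _ (hC.1 he1) _ (hC.1 he2) (fun h =>
        hne (hinj e (hsub e he) e' (hsub e' he') h))
      have h7 : (e ∩ e').image f ⊆ e.image f ∩ e'.image f := image_inter_subset f e e'
      have h8 := card_le_card h7
      rw [card_image_of_injOn (hf.mono (by
        intro k hk
        exact mem_coe.2 (hsub e he (mem_inter.1 (mem_coe.1 hk)).1)))] at h8
      omega
    have := typ_ratio9 j hj4
    rw [h4]
    calc 9 * C.card ≤ 9 * (typ.getD j (0, ∅)).2.card := Nat.mul_le_mul_left 9 h5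
      _ ≤ _ := this)
  have h2 : (G.sup id).card ≤ S.card := card_le_card (Finset.sup_le hG)
  omega

end Pool.Agent.H85A.FC
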