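import Pool.Agent.H85A.FC.Data

set_option autoImplicit false

/-! Connected families of triples. -/

namespace Pool.Agent.H85A.FC

open Finset

variable {α : Type*} [DecidableEq α]

/-- connected families -/
def Conn (C : Finset (Finset α)) : Prop :=
  C.Nonempty ∧ ∀ A ⊆ C, A.Nonempty → (∀ X ∈ A, ∀ Y ∈ C, (X ∩ Y).Nonempty → Y ∈ A) → A = C

/-- `C` is a copy of `p.2` -/
def Like (p : ℕ × Finset (Finset ℕ)) (C : Finset (Finset α)) : Prop :=
  ∃ f : ℕ → α, Set.InjOn f (range p.1) ∧ C = p.2.image (fun e => e.image f)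

/-- `C` contains a copy of a configuration -/
def HasCfg (C : Finset (Finset α)) : Prop :=
  ∃ p ∈ cfg, ∃ f : ℕ → α, Set.InjOn f (range p.2.1.length) ∧ ∀ e ∈ p.1, e.image f ∈ C

theorem HasCfg.mono {C G : Finset (Finset α)} (h : HasCfg C) (hCG : C ⊆ G) : HasCfg G := by
  obtain ⟨p, hp, f, hf, h⟩ := h
  exact ⟨p, hp, f, hf, fun e he => hCG (h e he)⟩

theorem HasCfg.weighted {G : Finset (Finset α)} {S : Finset α} (h : HasCfg G)
    (hG : ∀ B ∈ G, B ⊆ S) : Weighted S G := by
  obtain ⟨p, hp, f, hf, h⟩ := h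
  exact weighted_of_good (cfg_good p hp) hf hG h

theorem typ_sub : ∀ j < 7, ∀ e ∈ (typ.getD j (0, ∅)).2, e ⊆ range (typ.getD j (0, ∅)).1 := by
  decide +kernel

/-- the extension of the map -/
theorem exists_ext {N : ℕ} {f : ℕ → α} (hf : Set.InjOn f (range N)) {e : Finset α}
    (he : e.card = 3) :
    ∃ f' : ℕ → α, (∀ i < N, f' i = f i) ∧
      Set.InjOn f' (range (N + 3 - ((range N).filter (fun i => f i ∈ e)).card)) ∧
      (newT N ((range N).filter (fun i => f i ∈ e))).image f' = e ∧
      ((range N).filter (fun i => f i ∈ e)).card ≤ 3 := by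
  classical
  set R := (range N).filter (fun i => f i ∈ e) with hR
  set W := e \ (range N).image f with hW
  have hRi : R.image f = e ∩ (range N).image f := by
    ext y
    simp only [hR, mem_image, mem_filter, mem_inter]
    constructor
    · rintro ⟨i, ⟨h1, h2⟩, rfl⟩
      exact ⟨h2, i, h1, rfl⟩
    · rintro ⟨h1, i, h2, rfl⟩
      exact ⟨i, ⟨h2, h1⟩, rfl⟩
  have hRc : R.card = (e ∩ (range N).image f).card := by
    rw [← hRi, card_image_of_injOn]
    exact hf.mono (by intro i hi; exact mem_coe.2 (mem_filter.1 (mem_coe.1 hi)).1)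
  have hWc : R.card + W.card = 3 := by
    rw [hRc, hW, ← he]
    exact card_inter_add_card_sdiff e _
  have hne : e.Nonempty := by rw [← card_pos, he]; norm_num
  obtain ⟨y0, hy0⟩ := hne
  set l := W.toList with hl
  have hlen : l.length = W.card := length_toList W
  have hnd : l.Nodup := nodup_toList W
  set f' : ℕ → α := fun i => if i < N then f i else l.getD (i - N) y0 with hf'
  have h1 : ∀ i < N, f' i = f i := fun i hi => by simp only [hf', if_pos hi]
  have h2 : ∀ i, N ≤ i → ∀ h : i - N < l.length, f' i = l[i - N] := by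
    intro i hi h
    simp only [hf', if_neg (not_lt.2 hi)]
    rw [List.getD_eq_getElem _ _ h]
  have h3 : ∀ i, N ≤ i → i < N + 3 - R.card → f' i ∈ W := by
    intro i hi hi'
    have h : i - N < l.length := by omega
    rw [h2 i hi h, ← mem_toList]
    exact List.getElem_mem h
  refine ⟨f', h1, ?_, ?_, by omega⟩
  · intro i hi j hj hij
    rw [mem_coe, mem_range] at hi hj
    rcases lt_or_ge i N with hiN | hiN <;> rcases lt_or_ge j N with hjN | hjN
    · rw [h1 i hiN, h1 j hjN] at hij
      exact hf (mem_coe.2 (mem_range.2 hiN)) (mem_coe.2 (mem_range.2 hjN)) hij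
    · exfalso
      have h4 := h3 j hjN hj
      rw [← hij, h1 i hiN, hW, mem_sdiff] at h4
      exact h4.2 (mem_image_of_mem f (mem_range.2 hiN))
    · exfalso
      have h4 := h3 i hiN hi
      rw [hij, h1 j hjN, hW, mem_sdiff] at h4
      exact h4.2 (mem_image_of_mem f (mem_range.2 hjN))
    · have ha : i - N < l.length := by omega
      have hb : j - N < l.length := by omega
      rw [h2 i hiN ha, h2 j hjN hb] at hij
      have := (hnd.getElem_inj_iff).1 hij
      omega
  · unfold newT
    rw [image_union]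
    have e1 : R.image f' = e ∩ (range N).image f := by
      rw [← hRi]
      refine image_congr ?_
      intro i hi
      exact h1 i (mem_range.1 (mem_filter.1 (mem_coe.1 hi)).1)
    have e2 : (Ico N (N + 3 - R.card)).image f' = W := by
      ext y
      rw [mem_image]
      constructor
      · rintro ⟨i, hi, rfl⟩
        rw [mem_Ico] at hi
        exact h3 i hi.1 hi.2
      · intro hy
        rw [← mem_toList] at hy
        obtain ⟨n, hn, rfl⟩ := List.getElem_of_mem hy
        refine ⟨N + n, ?_, ?_⟩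
        · rw [mem_Ico]
          have : n < l.length := hn
          omega
        · rw [h2 (N + n) (by omega) (by rw [Nat.add_sub_cancel_left]; exact hn)]
          congr 1
          omega
    rw [e1, e2, hW, union_comm]
    exact sdiff_union_inter e _

theorem Tab.ok {N : ℕ} {H : Finset (Finset ℕ)} {t1 : List Wit} {t2 : List (List Wit)}
    {t3 : List (List (List Wit))} (h : Tab N H t1 t2 t3) {R : Finset ℕ} (hR : R ⊆ range N)
    (h1 : R.Nonempty) (h3 : R.card ≤ 3) : ∃ w : Wit, w.Ok N H R := by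
  have hlt : ∀ i ∈ R, i < N := fun i hi => mem_range.1 (hR hi)
  have hpos := card_pos.2 h1
  have hc : R.card = 1 ∨ R.card = 2 ∨ R.card = 3 := by omega
  rcases hc with hc | hc | hc
  · obtain ⟨i, rfl⟩ := card_eq_one.1 hc
    exact ⟨_, h.1 i (hlt i (by simp))⟩
  · obtain ⟨a, b, hab, rfl⟩ := card_eq_two.1 hc
    rcases lt_or_gt_of_ne hab with hlt' | hgt
    · have := h.2.1 b (hlt b (by simp)) a hlt'
      rw [pair_comm] at this
      exact ⟨_, this⟩
    · exact ⟨_, h.2.1 a (hlt a (by simp)) b hgt⟩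
  · have hex : ∃ i j k, k < j ∧ j < i ∧ R = {i, j, k} := by
      obtain ⟨a, b, c, hab, hac, hbc, rfl⟩ := card_eq_three.1 hc
      rcases lt_or_gt_of_ne hab with h4 | h4 <;> rcases lt_or_gt_of_ne hac with h5 | h5 <;>
        rcases lt_or_gt_of_ne hbc with h6 | h6
      · exact ⟨c, b, a, h4, h6, by ext x; simp only [mem_insert, mem_singleton]; tauto⟩
      · exact ⟨b, c, a, h5, h6, by ext x; simp only [mem_insert, mem_singleton]; tauto⟩
      · omega
      · exact ⟨b, a, c, h5, h4, by ext x; simp only [mem_insert, mem_singleton]; tauto⟩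
      · exact ⟨c, a, b, h4, h5, by ext x; simp only [mem_insert, mem_singleton]; tauto⟩
      · omega
      · exact ⟨a, c, b, h6, h5, by ext x; simp only [mem_insert, mem_singleton]; tauto⟩
      · exact ⟨a, b, c, h6, h4, by ext x; simp only [mem_insert, mem_singleton]⟩
    obtain ⟨i, j, k, hkj, hji, rfl⟩ := hex
    exact ⟨_, h.2.2 i (hlt i (by simp)) j hji k hkj⟩

theorem tabs : ∀ j < 7, ∃ t1 t2 t3, Tab (typ.getD j (0, ∅)).1 (typ.getD j (0, ∅)).2 t1 t2 t3 := by
  intro j hj
  interval_cases j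
  · exact ⟨_, _, _, tab_0⟩
  · exact ⟨_, _, _, tab_1⟩
  · exact ⟨_, _, _, tab_2⟩
  · exact ⟨_, _, _, tab_3⟩
  · exact ⟨_, _, _, tab_4⟩
  · exact ⟨_, _, _, tab_5⟩
  · exact ⟨_, _, _, tab_6⟩

omit [DecidableEq α] in
theorem injOn_comp {f : ℕ → α} {M n : ℕ} (hf : Set.InjOn f (range M)) {s : List ℕ}
    (hs : s.length = n) (hnd : s.Nodup) (hlt : ∀ a ∈ s, a < M) :
    Set.InjOn (fun i => f (s.getD i 0)) (range n) := by
  intro i hi j hj hij
  rw [mem_coe, mem_range] at hi hj
  have hi' : i < s.length := by omega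
  have hj' : j < s.length := by omega
  simp only at hij
  rw [List.getD_eq_getElem _ _ hi', List.getD_eq_getElem _ _ hj'] at hij
  have h1 := hf (mem_coe.2 (mem_range.2 (hlt _ (List.getElem_mem hi'))))
    (mem_coe.2 (mem_range.2 (hlt _ (List.getElem_mem hj')))) hij
  exact (hnd.getElem_inj_iff).1 h1

theorem im_image (f : ℕ → α) (s : List ℕ) (e : Finset ℕ) :
    (im s e).image f = e.image (fun i => f (s.getD i 0)) := by
  unfold im
  rw [image_image]
  rfl

/-- adding a triple to an exceptional family -/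
theorem extend {j : ℕ} (hj : j < 7) {C : Finset (Finset α)} (hC : Like (typ.getD j (0, ∅)) C)
    {e X : Finset α} (he : e.card = 3) (heC : e ∉ C) (hX : X ∈ C) (hXe : (X ∩ e).Nonempty) :
    (∃ i < 7, Like (typ.getD i (0, ∅)) (insert e C)) ∨ HasCfg (insert e C) := by
  classical
  obtain ⟨f, hf, hCf⟩ := hC
  obtain ⟨t1, t2, t3, htab⟩ := tabs j hj
  set N := (typ.getD j (0, ∅)).1 with hN
  set H := (typ.getD j (0, ∅)).2 with hH
  have hHN : ∀ e ∈ H, e ⊆ range N := typ_sub j hj
  obtain ⟨f', h1, h2, h3, h4⟩ := exists_ext hf he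
  set R := (range N).filter (fun i => f i ∈ e) with hR
  have hRne : R.Nonempty := by
    obtain ⟨y, hy⟩ := hXe
    rw [mem_inter] at hy
    rw [hCf] at hX
    obtain ⟨e0, he0, rfl⟩ := mem_image.1 hX
    obtain ⟨i, hi, rfl⟩ := mem_image.1 hy.1
    exact ⟨i, mem_filter.2 ⟨hHN e0 he0 hi, hy.2⟩⟩
  have himg : insert e C = (insert (newT N R) H).image (fun e => e.image f') := by
    rw [image_insert, h3, hCf]
    congr 1
    refine image_congr ?_
    intro e0 he0
    refine image_congr ?_
    intro i hi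
    exact (h1 i (mem_range.1 (hHN e0 (mem_coe.1 he0) (mem_coe.1 hi)))).symm
  obtain ⟨w, hw⟩ := htab.ok (filter_subset _ _) hRne h4
  cases w with
  | x =>
    exfalso
    apply heC
    have h5 : newT N R ∈ H := hw
    rw [← h3, hCf]
    refine mem_image.2 ⟨newT N R, h5, ?_⟩
    refine image_congr ?_
    intro i hi
    exact (h1 i (mem_range.1 (hHN _ h5 (mem_coe.1 hi)))).symm
  | t i s =>
    left
    obtain ⟨hi, hs, hnd, hlt, heq⟩ := hw
    refine ⟨i, hi, fun k => f' (s.getD k 0), injOn_comp h2 hs hnd hlt, ?_⟩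
    rw [himg, heq, image_image]
    refine image_congr ?_
    intro e0 _
    exact im_image f' s e0
  | c k s =>
    right
    obtain ⟨hk, hs, hnd, hlt, hall⟩ := hw
    refine ⟨cfg.getD k (∅, [], []), ?_, fun k => f' (s.getD k 0), injOn_comp h2 hs hnd hlt, ?_⟩
    · have hlen : k < cfg.length := hk
      rw [List.getD_eq_getElem _ _ hlen]
      exact List.getElem_mem hlen
    · intro e0 he0
      rw [← im_image, himg]
      exact mem_image_of_mem _ (hall e0 he0)

theorem like_single {e : Finset α} (he : e.card = 3) : Like (typ.getD 0 (0, ∅)) {e} := by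
  obtain ⟨a, b, c, hab, hac, hbc, rfl⟩ := card_eq_three.1 he
  refine ⟨fun i => if i = 0 then a else if i = 1 then b else c, ?_, ?_⟩
  · intro x hx y hy hxy
    have h3 : (typ.getD 0 (0, ∅)).1 = 3 := rfl
    rw [mem_coe, mem_range, h3] at hx hy
    interval_cases x <;> interval_cases y <;>
      simp [hab, hac, hbc, hab.symm, hac.symm, hbc.symm] at hxy ⊢
  · have h3 : (typ.getD 0 (0, ∅)).2 = {{0, 1, 2}} := rfl
    rw [h3, image_singleton, image_insert, image_insert, image_singleton]
    rfl

/-- a connected family of triples is exceptional or contains a configuration -/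
theorem classify {C : Finset (Finset α)} (hC : Conn C) (h3 : ∀ e ∈ C, e.card = 3) :
    (∃ i < 7, Like (typ.getD i (0, ∅)) C) ∨ HasCfg C := by
  classical
  obtain ⟨⟨e0, he0⟩, hconn⟩ := hC
  set P := C.powerset.filter (fun C' => ∃ i < 7, Like (typ.getD i (0, ∅)) C') with hP
  have hmemP : ∀ C', C' ∈ P ↔ C' ⊆ C ∧ ∃ i < 7, Like (typ.getD i (0, ∅)) C' := by
    intro C'
    simp only [hP, mem_filter, mem_powerset]
  have hne : P.Nonempty := ⟨{e0}, by
    rw [hmemP, singleton_subset_iff]
    exact ⟨he0, 0, by norm_num, like_single (h3 e0 he0)⟩⟩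
  obtain ⟨C', hC', hmax⟩ := exists_max_image P card hne
  rw [hmemP] at hC'
  obtain ⟨hsub, i, hi, hlike⟩ := hC'
  by_cases heq : C' = C
  · left; exact ⟨i, hi, heq ▸ hlike⟩
  right
  have hC'ne : C'.Nonempty := by
    rw [nonempty_iff_ne_empty]
    rintro rfl
    have := hmax {e0} (by
      rw [hmemP, singleton_subset_iff]
      exact ⟨he0, 0, by norm_num, like_single (h3 e0 he0)⟩)
    simp at this
  have hnc : ¬ ∀ X ∈ C', ∀ Y ∈ C, (X ∩ Y).Nonempty → Y ∈ C' :=
    fun h => heq (hconn C' hsub hC'ne h)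
  push Not at hnc
  obtain ⟨X, hX, Y, hY, hXY, hYC'⟩ := hnc
  rcases extend hi hlike (h3 Y hY) hYC' hX hXY with ⟨k, hk, hk'⟩ | hcfg
  · exfalso
    have := hmax (insert Y C') (by
      rw [hmemP]
      exact ⟨insert_subset hY hsub, k, hk, hk'⟩)
    rw [card_insert_of_notMem hYC'] at this
    omega
  · exact hcfg.mono (insert_subset hY hsub)

theorem typ_card : ∀ j < 7, (typ.getD j (0, ∅)).2.card ≤ 4 := by decide +kernel

/-- five connected triples -/
theorem hasCfg_of_five {C : Finset (Finset α)} (hC : Conn C) (h3 : ∀ e ∈ C, e.card = 3)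
    (h5 : 5 ≤ C.card) : HasCfg C := by
  rcases classify hC h3 with ⟨i, hi, f, _, hf⟩ | h
  · exfalso
    have h1 := typ_card i hi
    have h2 : C.card ≤ (typ.getD i (0, ∅)).2.card := by
      rw [hf]; exact card_image_le
    omega
  · exact h

end Pool.Agent.H85A.FC
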