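import Mathlib

set_option autoImplicit false

/-! Edges leaving a down-closed family: fibres, disjoint sets of directions, transport. -/

namespace Pool.Agent.H85A.FC

open Finset

variable {α : Type*} [DecidableEq α]

/-- the weight of the edges leaving `𝒜` in the directions of `K` -/
noncomputable def bd (c : α → ℝ) (K : Finset α) (𝒜 : Finset (Finset α)) : ℝ :=
  ∑ D ∈ 𝒜, ∑ k ∈ K.filter (fun k => k ∉ D ∧ insert k D ∉ 𝒜), c k

/-- closed downwards -/
def Down (𝒜 : Finset (Finset α)) : Prop := ∀ D ∈ 𝒜, ∀ D' ⊆ D, D' ∈ 𝒜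

theorem bd_nonneg {c : α → ℝ} (hc : ∀ x, 0 ≤ c x) (K : Finset α) (𝒜 : Finset (Finset α)) :
    0 ≤ bd c K 𝒜 :=
  sum_nonneg fun _ _ => sum_nonneg fun _ _ => hc _

/-- disjoint sets of directions -/
theorem bd_split (c : α → ℝ) {K L : Finset α} (h : K ⊆ L) (𝒜 : Finset (Finset α)) :
    bd c L 𝒜 = bd c K 𝒜 + bd c (L \ K) 𝒜 := by
  unfold bd
  rw [← sum_add_distrib]
  refine sum_congr rfl fun D _ => ?_
  rw [← sum_union]
  · refine sum_congr ?_ fun _ _ => rfl
    rw [← filter_union, union_sdiff_of_subset h]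
  · rw [disjoint_left]
    intro k h1 h2
    exact (mem_sdiff.1 (mem_filter.1 h2).1).2 (mem_filter.1 h1).1

/-- fibres -/
theorem fib {c : α → ℝ} {K : Finset α} {m : ℝ} {𝒟 : Finset (Finset α)} (hd : Down 𝒟)
    (h : ∀ 𝒜 : Finset (Finset α), Down 𝒜 → (∀ A ∈ 𝒜, A ⊆ K ∧ ∃ D ∈ 𝒟, A ⊆ D) →
      m * 𝒜.card ≤ bd c K 𝒜) :
    m * 𝒟.card ≤ bd c K 𝒟 := by
  classical
  have key : ∀ R ∈ 𝒟.image (fun D => D \ K),
      m * ((𝒟.filter (fun D => D \ K = R)).card : ℝ) ≤
        ∑ D ∈ 𝒟.filter (fun D => D \ K = R),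
          ∑ k ∈ K.filter (fun k => k ∉ D ∧ insert k D ∉ 𝒟), c k := by
    intro R hR
    obtain ⟨D0, hD0, hR0⟩ := mem_image.1 hR
    have hRK : Disjoint R K := by
      rw [← hR0]; exact sdiff_disjoint
    set 𝒜 : Finset (Finset α) := (𝒟.filter (fun D => D \ K = R)).image (fun D => D ∩ K) with h𝒜
    have hmem : ∀ A, A ∈ 𝒜 ↔ A ⊆ K ∧ R ∪ A ∈ 𝒟 := by
      intro A
      rw [h𝒜, mem_image]
      constructor
      · rintro ⟨D, hD, rfl⟩
        rw [mem_filter] at hD
        refine ⟨inter_subset_right, ?_⟩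
        have : R ∪ D ∩ K = D := by
          rw [← hD.2]; exact sdiff_union_inter D K
        rw [this]; exact hD.1
      · rintro ⟨hA, hRA⟩
        refine ⟨R ∪ A, mem_filter.2 ⟨hRA, ?_⟩, ?_⟩
        · rw [union_sdiff_distrib, sdiff_eq_empty_iff_subset.2 hA, union_empty]
          exact sdiff_eq_self_of_disjoint hRK
        · rw [union_inter_distrib_right, disjoint_iff_inter_eq_empty.1 hRK, empty_union]
          exact inter_eq_left.2 hA
    have hinj : Set.InjOn (fun D : Finset α => D ∩ K) (𝒟.filter (fun D => D \ K = R)) := by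
      intro D hD D' hD' heq
      rw [mem_coe, mem_filter] at hD hD'
      simp only at heq
      rw [← sdiff_union_inter D K, ← sdiff_union_inter D' K, hD.2, hD'.2, heq]
    have hdown : Down 𝒜 := by
      intro A hA A' hA'
      rw [hmem] at hA ⊢
      exact ⟨hA'.trans hA.1, hd _ hA.2 _ (union_subset_union_right hA')⟩
    have h1 := h 𝒜 hdown (fun A hA => ⟨((hmem A).1 hA).1, R ∪ A, ((hmem A).1 hA).2,
      subset_union_right⟩)
    have hcard : 𝒜.card = (𝒟.filter (fun D => D \ K = R)).card := card_image_of_injOn hinj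
    rw [hcard] at h1
    refine h1.trans (le_of_eq ?_)
    unfold bd
    rw [h𝒜, sum_image (fun x hx y hy hxy => hinj (mem_coe.2 hx) (mem_coe.2 hy) hxy), ← h𝒜]
    refine sum_congr rfl fun D hD => ?_
    rw [mem_filter] at hD
    refine sum_congr ?_ fun _ _ => rfl
    ext k
    simp only [mem_filter]
    constructor
    · rintro ⟨hk, hkD, hins⟩
      refine ⟨hk, fun h' => hkD (mem_inter.2 ⟨h', hk⟩), fun h' => hins ?_⟩
      rw [hmem]
      refine ⟨insert_subset hk inter_subset_right, ?_⟩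
      have : R ∪ insert k (D ∩ K) = insert k D := by
        rw [union_insert, ← hD.2, sdiff_union_inter]
      rw [this]; exact h'
    · rintro ⟨hk, hkD, hins⟩
      refine ⟨hk, fun h' => hkD (mem_inter.1 h').1, fun h' => hins ?_⟩
      rw [hmem] at h'
      have : R ∪ insert k (D ∩ K) = insert k D := by
        rw [union_insert, ← hD.2, sdiff_union_inter]
      rw [← this]; exact h'.2
  have hmap : ∀ D ∈ 𝒟, D \ K ∈ 𝒟.image (fun D => D \ K) := fun D hD => mem_image_of_mem _ hD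
  have hc1 := card_eq_sum_card_fiberwise hmap
  unfold bd
  rw [← sum_fiberwise_of_maps_to hmap, hc1]
  push_cast
  rw [mul_sum]
  exact sum_le_sum key

/-- transport to a concrete set of directions: `f` is injective on `K0` -/
theorem transport {β : Type*} [DecidableEq β] {f : β → α} {K0 : Finset β}
    (hf : Set.InjOn f K0) {c : α → ℝ} {𝒜 : Finset (Finset α)}
    (hsub : ∀ A ∈ 𝒜, A ⊆ K0.image f) :
    𝒜.card = (K0.powerset.filter (fun A => A.image f ∈ 𝒜)).card ∧
    bd c (K0.image f) 𝒜 = bd (fun k => c (f k)) K0 (K0.powerset.filter (fun A => A.image f ∈ 𝒜)) := by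
  classical
  set 𝒜0 := K0.powerset.filter (fun A => A.image f ∈ 𝒜) with h0
  have hinj : Set.InjOn (fun A : Finset β => A.image f) (K0.powerset) := by
    intro A hA B hB hAB
    rw [mem_coe, mem_powerset] at hA hB
    simp only at hAB
    ext b
    constructor
    · intro hb
      have : f b ∈ B.image f := by rw [← hAB]; exact mem_image_of_mem f hb
      obtain ⟨b', hb', he⟩ := mem_image.1 this
      have := hf (hB hb') (hA hb) he
      rwa [← this]
    · intro hb
      have : f b ∈ A.image f := by rw [hAB]; exact mem_image_of_mem f hb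
      obtain ⟨b', hb', he⟩ := mem_image.1 this
      have := hf (hA hb') (hB hb) he
      rwa [← this]
  have hinj0 : Set.InjOn (fun A : Finset β => A.image f) 𝒜0 :=
    hinj.mono (by intro A hA; exact mem_coe.2 (mem_filter.1 (mem_coe.1 hA)).1)
  have himg : 𝒜 = 𝒜0.image (fun A => A.image f) := by
    ext A
    constructor
    · intro hA
      refine mem_image.2 ⟨K0.filter (fun b => f b ∈ A), ?_, ?_⟩
      · have : (K0.filter (fun b => f b ∈ A)).image f = A := by
          ext a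
          simp only [mem_image, mem_filter]
          constructor
          · rintro ⟨b, ⟨_, hb⟩, rfl⟩; exact hb
          · intro ha
            obtain ⟨b, hb, rfl⟩ := mem_image.1 (hsub A hA ha)
            exact ⟨b, ⟨hb, ha⟩, rfl⟩
        rw [h0, mem_filter, this]
        exact ⟨mem_powerset.2 (filter_subset _ _), hA⟩
      · ext a
        simp only [mem_image, mem_filter]
        constructor
        · rintro ⟨b, ⟨_, hb⟩, rfl⟩; exact hb
        · intro ha
          obtain ⟨b, hb, rfl⟩ := mem_image.1 (hsub A hA ha)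
          exact ⟨b, ⟨hb, ha⟩, rfl⟩
    · intro hA
      obtain ⟨A0, hA0, rfl⟩ := mem_image.1 hA
      exact (mem_filter.1 hA0).2
  refine ⟨?_, ?_⟩
  · conv_lhs => rw [himg]
    exact card_image_of_injOn hinj0
  · unfold bd
    conv_lhs => rw [show (∑ D ∈ 𝒜, ∑ k ∈ (K0.image f).filter (fun k => k ∉ D ∧ insert k D ∉ 𝒜), c k)
      = ∑ D ∈ 𝒜0.image (fun A => A.image f),
        ∑ k ∈ (K0.image f).filter (fun k => k ∉ D ∧ insert k D ∉ 𝒜), c k by rw [← himg]]
    rw [sum_image (fun x hx y hy hxy => hinj0 (mem_coe.2 hx) (mem_coe.2 hy) hxy)]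
    refine sum_congr rfl fun A hA => ?_
    have hA' := (mem_filter.1 hA)
    have hAK := mem_powerset.1 hA'.1
    have e1 : (K0.image f).filter (fun k => k ∉ A.image f ∧ insert k (A.image f) ∉ 𝒜) =
        (K0.filter (fun k => k ∉ A ∧ insert k A ∉ 𝒜0)).image f := by
      ext a
      simp only [mem_filter, mem_image]
      constructor
      · rintro ⟨⟨b, hb, rfl⟩, h1, h2⟩
        refine ⟨b, ⟨hb, fun h' => h1 ⟨b, h', rfl⟩, fun h' => h2 ?_⟩, rfl⟩
        rw [h0, mem_filter, image_insert] at h'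
        exact h'.2
      · rintro ⟨b, ⟨hb, h1, h2⟩, rfl⟩
        refine ⟨⟨b, hb, rfl⟩, ?_, fun h' => h2 ?_⟩
        · rintro ⟨b', hb', he⟩
          have := hf (hAK hb') hb he
          exact h1 (this ▸ hb')
        · rw [h0, mem_filter, mem_powerset, image_insert]
          exact ⟨insert_subset hb hAK, h'⟩
    rw [e1, sum_image]
    intro x hx y hy hxy
    exact hf (mem_filter.1 hx).1 (mem_filter.1 hy).1 hxy

/-- the number of edges leaving `𝒜` in direction `k` -/
def cnt {β : Type*} [DecidableEq β] (𝒜 : Finset (Finset β)) (k : β) : ℕ :=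
  (𝒜.filter (fun A => k ∉ A ∧ insert k A ∉ 𝒜)).card

theorem bd_eq_cnt {β : Type*} [DecidableEq β] (w : β → ℝ) (K : Finset β) (𝒜 : Finset (Finset β)) :
    bd w K 𝒜 = ∑ k ∈ K, (cnt 𝒜 k : ℝ) * w k := by
  unfold bd cnt
  have h1 : ∀ D ∈ 𝒜, ∑ k ∈ K.filter (fun k => k ∉ D ∧ insert k D ∉ 𝒜), w k =
      ∑ k ∈ K, if k ∉ D ∧ insert k D ∉ 𝒜 then w k else 0 := fun D _ => sum_filter _ _
  rw [sum_congr rfl h1, sum_comm]
  refine sum_congr rfl fun k _ => ?_
  rw [← sum_filter, sum_const, nsmul_eq_mul]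

/-- edge gadget -/
theorem edge_gadget {c : α → ℝ} {a b : α} (hab : a ≠ b) {m : ℝ}
    (ha : m ≤ c a) (hb : m ≤ c b) (h3 : 3 * m ≤ c a + c b) (h0 : 0 ≤ c a)
    {𝒜 : Finset (Finset α)} (hd : Down 𝒜) (hsub : ∀ A ∈ 𝒜, A ⊆ {a, b})
    (hno : ({a, b} : Finset α) ∉ 𝒜) : m * 𝒜.card ≤ bd c {a, b} 𝒜 := by
  set f : ℕ → α := fun i => if i = 0 then a else b with hf
  have hinj : Set.InjOn f ({0, 1} : Finset ℕ) := by
    intro x hx y hy hxy
    simp only [coe_insert, coe_singleton, Set.mem_insert_iff, Set.mem_singleton_iff] at hx hy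
    rcases hx with rfl | rfl <;> rcases hy with rfl | rfl <;> simp [hf] at hxy ⊢
    · exact hab hxy
    · exact hab hxy.symm
  have himg : ({0, 1} : Finset ℕ).image f = {a, b} := by simp [hf, image_insert]
  obtain ⟨h1, h2⟩ := transport (c := c) (𝒜 := 𝒜) hinj (by rw [himg]; exact hsub)
  rw [himg] at h2
  rw [h1, h2, bd_eq_cnt]
  have key : ∀ ℬ ∈ ({∅, {0}, {1}} : Finset (Finset ℕ)).powerset,
      (∀ D ∈ ℬ, ∀ D' ∈ D.powerset, D' ∈ ℬ) →
      (ℬ.card, cnt ℬ 0, cnt ℬ 1) ∈ ({(0, 0, 0), (1, 1, 1), (2, 2, 0), (2, 0, 2), (3, 1, 1)} :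
        Finset (ℕ × ℕ × ℕ)) := by
    decide +kernel
  have hB : ∀ ℬ : Finset (Finset ℕ), ℬ = ({0, 1} : Finset ℕ).powerset.filter
      (fun A => A.image f ∈ 𝒜) → m * (ℬ.card : ℝ) ≤ ∑ k ∈ ({0, 1} : Finset ℕ),
        (cnt ℬ k : ℝ) * c (f k) := by
    intro ℬ hℬ
    have hmem : ∀ A, A ∈ ℬ ↔ A ⊆ {0, 1} ∧ A.image f ∈ 𝒜 := by
      intro A; rw [hℬ, mem_filter, mem_powerset]
    have h4 := key ℬ (by
      rw [mem_powerset]
      intro A hA
      rw [hmem] at hA
      have h5 : A ∈ ({0, 1} : Finset ℕ).powerset := mem_powerset.2 hA.1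
      have h6 : ({0, 1} : Finset ℕ).powerset = {∅, {0}, {1}, {0, 1}} := by decide
      rw [h6] at h5
      simp only [mem_insert, mem_singleton] at h5 ⊢
      rcases h5 with h5 | h5 | h5 | h5
      · exact Or.inl h5
      · exact Or.inr (Or.inl h5)
      · exact Or.inr (Or.inr h5)
      · exfalso
        rw [h5, himg] at hA
        exact hno hA.2) (by
      intro D hD D' hD'
      rw [mem_powerset] at hD'
      rw [hmem] at hD ⊢
      exact ⟨hD'.trans hD.1, hd _ hD.2 _ (image_subset_image hD')⟩)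
    rw [sum_pair (by norm_num)]
    have e0 : f 0 = a := by simp [hf]
    have e1 : f 1 = b := by simp [hf]
    rw [e0, e1]
    simp only [mem_insert, mem_singleton, Prod.mk.injEq] at h4
    rcases h4 with ⟨h4, h5, h6⟩ | ⟨h4, h5, h6⟩ | ⟨h4, h5, h6⟩ | ⟨h4, h5, h6⟩ | ⟨h4, h5, h6⟩ <;>
      rw [h4, h5, h6] <;> push_cast <;> linarith
  exact hB _ rfl

/-- path gadget with centre `a` -/
theorem path_gadget {c : α → ℝ} {p a q : α} (hpa : p ≠ a) (haq : a ≠ q) (hpq : p ≠ q) {m : ℝ}
    (h1 : m ≤ c a) (h2 : m ≤ c p + c q) (h3 : 3 * m ≤ 3 * c q + c a + c p)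
    (h4 : 3 * m ≤ 3 * c p + c a + c q)
    (h6 : 5 * m ≤ 3 * c a + c p + c q) (hp : 0 ≤ c p) (ha : 0 ≤ c a) (hq : 0 ≤ c q)
    {𝒜 : Finset (Finset α)} (hd : Down 𝒜) (hsub : ∀ A ∈ 𝒜, A ⊆ {p, a, q})
    (hno1 : ({p, a} : Finset α) ∉ 𝒜) (hno2 : ({a, q} : Finset α) ∉ 𝒜) :
    m * 𝒜.card ≤ bd c {p, a, q} 𝒜 := by
  set f : ℕ → α := fun i => if i = 0 then p else if i = 1 then a else q with hf
  have hinj : Set.InjOn f ({0, 1, 2} : Finset ℕ) := by
    intro x hx y hy hxy
    simp only [coe_insert, coe_singleton, Set.mem_insert_iff, Set.mem_singleton_iff] at hx hy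
    rcases hx with rfl | rfl | rfl <;> rcases hy with rfl | rfl | rfl <;>
      simp [hf, hpa, haq, hpq, hpa.symm, haq.symm, hpq.symm] at hxy ⊢
  have himg : ({0, 1, 2} : Finset ℕ).image f = {p, a, q} := by simp [hf, image_insert]
  obtain ⟨e1, e2⟩ := transport (c := c) (𝒜 := 𝒜) hinj (by rw [himg]; exact hsub)
  rw [himg] at e2
  rw [e1, e2, bd_eq_cnt]
  have key : ∀ ℬ ∈ ({∅, {0}, {1}, {2}, {0, 2}} : Finset (Finset ℕ)).powerset,
      (∀ D ∈ ℬ, ∀ D' ∈ D.powerset, D' ∈ ℬ) →
      (ℬ.card, cnt ℬ 0, cnt ℬ 1, cnt ℬ 2) ∈ ({(0, 0, 0, 0), (1, 1, 1, 1), (2, 0, 2, 2),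
        (2, 2, 0, 2), (2, 2, 2, 0), (3, 1, 1, 3), (3, 3, 1, 1), (3, 1, 3, 1), (4, 2, 2, 2),
        (4, 0, 4, 0), (5, 1, 3, 1)} : Finset (ℕ × ℕ × ℕ × ℕ)) := by
    decide +kernel
  have hB : ∀ ℬ : Finset (Finset ℕ), ℬ = ({0, 1, 2} : Finset ℕ).powerset.filter
      (fun A => A.image f ∈ 𝒜) → m * (ℬ.card : ℝ) ≤ ∑ k ∈ ({0, 1, 2} : Finset ℕ),
        (cnt ℬ k : ℝ) * c (f k) := by
    intro ℬ hℬ
    have hmem : ∀ A, A ∈ ℬ ↔ A ⊆ {0, 1, 2} ∧ A.image f ∈ 𝒜 := by
      intro A; rw [hℬ, mem_filter, mem_powerset]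
    have hn1 : ∀ A : Finset ℕ, {0, 1} ⊆ A → A ∉ ℬ := by
      intro A hA hAB
      rw [hmem] at hAB
      refine hno1 (hd _ hAB.2 _ ?_)
      have : ({0, 1} : Finset ℕ).image f = {p, a} := by simp [hf, image_insert]
      rw [← this]
      exact image_subset_image hA
    have hn2 : ∀ A : Finset ℕ, {1, 2} ⊆ A → A ∉ ℬ := by
      intro A hA hAB
      rw [hmem] at hAB
      refine hno2 (hd _ hAB.2 _ ?_)
      have : ({1, 2} : Finset ℕ).image f = {a, q} := by simp [hf, image_insert]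
      rw [← this]
      exact image_subset_image hA
    have g := key ℬ (by
      rw [mem_powerset]
      intro A hA
      have hA' := hA
      rw [hmem] at hA'
      have h7 : A ∈ ({0, 1, 2} : Finset ℕ).powerset := mem_powerset.2 hA'.1
      have h8 : ({0, 1, 2} : Finset ℕ).powerset =
        {∅, {0}, {1}, {2}, {0, 2}, {0, 1}, {1, 2}, {0, 1, 2}} := by decide
      rw [h8] at h7
      simp only [mem_insert, mem_singleton] at h7 ⊢
      rcases h7 with h7 | h7 | h7 | h7 | h7 | h7 | h7 | h7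
      · exact Or.inl h7
      · exact Or.inr (Or.inl h7)
      · exact Or.inr (Or.inr (Or.inl h7))
      · exact Or.inr (Or.inr (Or.inr (Or.inl h7)))
      · exact Or.inr (Or.inr (Or.inr (Or.inr h7)))
      · exact absurd hA (hn1 A (by rw [h7]))
      · exact absurd hA (hn2 A (by rw [h7]))
      · exact absurd hA (hn1 A (by rw [h7]; decide))) (by
      intro D hD D' hD'
      rw [mem_powerset] at hD'
      rw [hmem] at hD ⊢
      exact ⟨hD'.trans hD.1, hd _ hD.2 _ (image_subset_image hD')⟩)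
    rw [sum_insert (by decide), sum_pair (by norm_num)]
    have e0 : f 0 = p := by simp [hf]
    have e1 : f 1 = a := by simp [hf]
    have e2 : f 2 = q := by simp [hf]
    rw [e0, e1, e2]
    simp only [mem_insert, mem_singleton, Prod.mk.injEq] at g
    rcases g with ⟨g1, g2, g3, g4⟩ | ⟨g1, g2, g3, g4⟩ | ⟨g1, g2, g3, g4⟩ | ⟨g1, g2, g3, g4⟩ |
      ⟨g1, g2, g3, g4⟩ | ⟨g1, g2, g3, g4⟩ | ⟨g1, g2, g3, g4⟩ | ⟨g1, g2, g3, g4⟩ |
      ⟨g1, g2, g3, g4⟩ | ⟨g1, g2, g3, g4⟩ | ⟨g1, g2, g3, g4⟩ <;>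
      rw [g1, g2, g3, g4] <;> push_cast <;> linarith
  exact hB _ rfl

/-- star gadget with centre `b` and leaves `L` -/
theorem star_gadget {c : α → ℝ} (hc : ∀ x, 0 ≤ c x) {b : α} {L : Finset α} (hb : b ∉ L) {m : ℝ}
    (h1 : m ≤ c b) (h2 : 2 * m ≤ ∑ x ∈ L, c x) {𝒜 : Finset (Finset α)} (hd : Down 𝒜)
    (hsub : ∀ A ∈ 𝒜, A ⊆ insert b L) (hno : ∀ x ∈ L, ({b, x} : Finset α) ∉ 𝒜) :
    m * 𝒜.card ≤ bd c (insert b L) 𝒜 := by
  classical
  have hbA : ∀ A ∈ 𝒜, b ∈ A → A = {b} := by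
    intro A hA hbA
    refine eq_singleton_iff_unique_mem.2 ⟨hbA, ?_⟩
    intro x hx
    by_contra hne
    have hxL : x ∈ L := by
      rcases mem_insert.1 (hsub A hA hx) with h | h
      · exact absurd h hne
      · exact h
    refine hno x hxL (hd A hA _ ?_)
    intro y hy
    rcases mem_insert.1 hy with h | h
    · rw [h]; exact hbA
    · rw [mem_singleton.1 h]; exact hx
  -- each member not containing `b`, different from `∅` if `{b} ∈ 𝒜`, contributes `c b`
  by_cases hs : ({b} : Finset α) ∈ 𝒜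
  · have he : (∅ : Finset α) ∈ 𝒜 := hd _ hs _ (empty_subset _)
    have hne : (∅ : Finset α) ≠ {b} := (singleton_ne_empty b).symm
    have hpair : ({∅, {b}} : Finset (Finset α)) ⊆ 𝒜 := by
      intro A hA
      rcases mem_insert.1 hA with h | h
      · rw [h]; exact he
      · rw [mem_singleton.1 h]; exact hs
    have hcard : 𝒜.card = (𝒜 \ {∅, {b}}).card + 2 := by
      rw [card_sdiff_of_subset hpair, card_pair hne]
      have := card_le_card hpair
      rw [card_pair hne] at this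
      omega
    have hlow1 : m * ((𝒜 \ {∅, {b}}).card : ℝ) ≤ ∑ D ∈ 𝒜 \ {∅, {b}},
        ∑ k ∈ (insert b L).filter (fun k => k ∉ D ∧ insert k D ∉ 𝒜), c k := by
      rw [mul_comm, ← nsmul_eq_mul, ← sum_const]
      refine sum_le_sum fun D hD => ?_
      rw [mem_sdiff] at hD
      have hbD : b ∉ D := by
        intro h
        apply hD.2
        rw [hbA D hD.1 h]
        simp
      have hbins : insert b D ∉ 𝒜 := by
        intro h
        have h7 := hbA _ h (mem_insert_self b D)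
        apply hD.2
        have : D = ∅ := by
          rw [eq_empty_iff_forall_notMem]
          intro y hy
          have h8 : y ∈ insert b D := mem_insert_of_mem hy
          rw [h7, mem_singleton] at h8
          rw [h8] at hy
          exact hbD hy
        rw [this]; simp
      calc m ≤ c b := h1
        _ = ∑ k ∈ ({b} : Finset α), c k := (sum_singleton _ _).symm
        _ ≤ _ := sum_le_sum_of_subset_of_nonneg (by
            intro k hk
            rw [mem_singleton] at hk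
            rw [hk, mem_filter]
            exact ⟨mem_insert_self b L, hbD, hbins⟩) (fun _ _ _ => hc _)
    have hlow2 : 2 * m ≤ ∑ D ∈ ({∅, {b}} : Finset (Finset α)),
        ∑ k ∈ (insert b L).filter (fun k => k ∉ D ∧ insert k D ∉ 𝒜), c k := by
      rw [sum_pair hne]
      have h7 : ∑ x ∈ L, c x ≤
          ∑ k ∈ (insert b L).filter (fun k => k ∉ ({b} : Finset α) ∧ insert k {b} ∉ 𝒜), c k := by
        refine sum_le_sum_of_subset_of_nonneg ?_ (fun _ _ _ => hc _)
        intro k hk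
        rw [mem_filter]
        refine ⟨mem_insert_of_mem hk, ?_, ?_⟩
        · rw [mem_singleton]
          rintro rfl
          exact hb hk
        · rw [pair_comm]
          exact hno k hk
      have h8 : 0 ≤ ∑ k ∈ (insert b L).filter (fun k => k ∉ (∅ : Finset α) ∧ insert k ∅ ∉ 𝒜), c k :=
        sum_nonneg fun _ _ => hc _
      linarith
    unfold bd
    rw [← sum_sdiff hpair, hcard]
    push_cast
    linarith
  · unfold bd
    rw [mul_comm, ← nsmul_eq_mul, ← sum_const]
    refine sum_le_sum fun D hD => ?_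
    have hbD : b ∉ D := by
      intro h
      rw [hbA D hD h] at hD
      exact hs hD
    have hbins : insert b D ∉ 𝒜 := by
      intro h
      have h7 := hbA _ h (mem_insert_self b D)
      rw [h7] at h
      exact hs h
    calc m ≤ c b := h1
      _ = ∑ k ∈ ({b} : Finset α), c k := (sum_singleton _ _).symm
      _ ≤ _ := sum_le_sum_of_subset_of_nonneg (by
          intro k hk
          rw [mem_singleton] at hk
          rw [hk, mem_filter]
          exact ⟨mem_insert_self b L, hbD, hbins⟩) (fun _ _ _ => hc _)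

end Pool.Agent.H85A.FC
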