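import Pool.Agent.H85A.FC.Final

set_option autoImplicit false

/-! Large families of triples without weights. -/

namespace Pool.Agent.H85A.FC

open Finset Pool.Agent.N188.FC

def tr (s : ℕ) : Finset ℕ := {s, s + 1, s + 2}

theorem mem_tr {s x : ℕ} : x ∈ tr s ↔ x = s ∨ x = s + 1 ∨ x = s + 2 := by
  unfold tr; simp only [mem_insert, mem_singleton]

/-- loose paths of four triples, and a shorter one -/
def pathFam (m : ℕ) : Finset (Finset ℕ) :=
  (range m).image (fun t => tr (9 * (t / 4) + 2 * (t % 4)))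

theorem card_tr (s : ℕ) : (tr s).card = 3 := by
  unfold tr
  rw [card_insert_of_notMem, card_insert_of_notMem, card_singleton]
  · rw [mem_singleton]; omega
  · rw [mem_insert, mem_singleton]; omega

theorem card_pathFam (m : ℕ) : (pathFam m).card = m := by
  unfold pathFam
  rw [card_image_of_injOn, card_range]
  intro t _ t' _ h
  simp only at h
  have h1 : (9 * (t / 4) + 2 * (t % 4)) ∈ tr (9 * (t' / 4) + 2 * (t' % 4)) := by
    rw [← h, mem_tr]; exact Or.inl rfl
  have h2 : (9 * (t' / 4) + 2 * (t' % 4)) ∈ tr (9 * (t / 4) + 2 * (t % 4)) := by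
    rw [h, mem_tr]; exact Or.inl rfl
  rw [mem_tr] at h1 h2
  omega

theorem pathFam_sub {m n : ℕ} (h : 9 * m ≤ 4 * n) : ∀ B ∈ pathFam m, B ⊆ range n := by
  intro B hB x hx
  unfold pathFam at hB
  obtain ⟨t, ht, rfl⟩ := mem_image.1 hB
  rw [mem_range] at ht ⊢
  rw [mem_tr] at hx
  omega

theorem pathFam_card {m : ℕ} : ∀ B ∈ pathFam m, B.card = 3 := by
  intro B hB
  unfold pathFam at hB
  obtain ⟨t, _, rfl⟩ := mem_image.1 hB
  exact card_tr _

theorem pathFam_linear {m : ℕ} : ∀ A ∈ pathFam m, ∀ B ∈ pathFam m, A ≠ B → (A ∩ B).card ≤ 1 := by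
  intro A hA B hB hAB
  unfold pathFam at hA hB
  obtain ⟨t, _, rfl⟩ := mem_image.1 hA
  obtain ⟨t', _, rfl⟩ := mem_image.1 hB
  have hne : t ≠ t' := fun h => hAB (by rw [h])
  rw [card_le_one]
  intro x hx y hy
  rw [mem_inter, mem_tr, mem_tr] at hx hy
  omega

theorem typ_path : ∀ k < 4, (typ.getD k (0, ∅)).2 = (range (k + 1)).image (fun j => tr (2 * j)) := by
  unfold tr
  decide +kernel

theorem tr_image (a s : ℕ) : (tr s).image (fun x => a + x) = tr (a + s) := by
  unfold tr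
  rw [image_insert, image_insert, image_singleton]
  congr 1

theorem pathFam_not {m n : ℕ} (h : 9 * m ≤ 4 * n) : ¬ Weighted (range n) (pathFam m) := by
  rintro ⟨c, hc0, ⟨x, hx, hpos⟩, hc⟩
  by_cases hfree : ∀ B ∈ pathFam m, x ∉ B
  · exact absurd (zero_of_free hc0 hc hx hfree) (ne_of_gt hpos)
  push Not at hfree
  obtain ⟨B, hB, hxB⟩ := hfree
  have hB' := hB
  unfold pathFam at hB'
  obtain ⟨t, ht, htB⟩ := mem_image.1 hB'
  rw [mem_range] at ht
  obtain ⟨i, hi⟩ : ∃ i, i = t / 4 := ⟨_, rfl⟩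
  obtain ⟨k, hk⟩ : ∃ k, k = min 3 (m - 4 * i - 1) := ⟨_, rfl⟩
  have hk4 : k < 4 := by omega
  obtain ⟨C, hC⟩ : ∃ C : Finset (Finset ℕ), C = (range (k + 1)).image (fun j => tr (9 * i + 2 * j)) :=
    ⟨_, rfl⟩
  have hlike : Like (typ.getD k (0, ∅)) C := by
    refine ⟨fun x => 9 * i + x, fun x _ y _ hxy => by simpa using hxy, ?_⟩
    rw [hC, typ_path k hk4, image_image]
    refine image_congr ?_
    intro j _
    exact (tr_image _ _).symm
  have hCG : C ⊆ pathFam m := by
    intro X hX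
    rw [hC] at hX
    obtain ⟨j, hj, rfl⟩ := mem_image.1 hX
    rw [mem_range] at hj
    unfold pathFam
    refine mem_image.2 ⟨4 * i + j, mem_range.2 (by omega), ?_⟩
    have h1 : (4 * i + j) / 4 = i := by omega
    have h2 : (4 * i + j) % 4 = j := by omega
    rw [h1, h2]
  have hcl : ∀ X ∈ C, ∀ Y ∈ pathFam m, (X ∩ Y).Nonempty → Y ∈ C := by
    intro X hX Y hY hXY
    rw [hC] at hX
    obtain ⟨j, hj, rfl⟩ := mem_image.1 hX
    rw [mem_range] at hj
    unfold pathFam at hY
    obtain ⟨t', ht', rfl⟩ := mem_image.1 hY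
    rw [mem_range] at ht'
    obtain ⟨y, hy⟩ := hXY
    rw [mem_inter, mem_tr, mem_tr] at hy
    have h1 : t' / 4 = i := by omega
    rw [hC]
    refine mem_image.2 ⟨t' % 4, mem_range.2 (by omega), ?_⟩
    rw [h1]
  have hBC : B ∈ C := by
    rw [hC, ← htB]
    refine mem_image.2 ⟨t % 4, mem_range.2 (by omega), ?_⟩
    rw [hi]
  exact absurd (zero_of_like (by omega : k < 7) hlike (pathFam_sub h) hCG hcl hc0 hc B hBC x hxB)
    (ne_of_gt hpos)

/-- pairs of triples with two common points, and one more triple if `m` is odd -/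
def g3 (m t : ℕ) : Finset ℕ :=
  if t % 2 = 1 then {2 * t - 2, 2 * t - 1, 2 * t + 1}
  else if t + 1 < m then {2 * t, 2 * t + 1, 2 * t + 2} else {2 * t - 1, 2 * t, 2 * t + 1}

def pairFam (m : ℕ) : Finset (Finset ℕ) := (range m).image (g3 m)

theorem mem_g3 {m t x : ℕ} : x ∈ g3 m t ↔
    (t % 2 = 1 ∧ (x = 2 * t - 2 ∨ x = 2 * t - 1 ∨ x = 2 * t + 1)) ∨
    (t % 2 = 0 ∧ t + 1 < m ∧ (x = 2 * t ∨ x = 2 * t + 1 ∨ x = 2 * t + 2)) ∨
    (t % 2 = 0 ∧ ¬ t + 1 < m ∧ (x = 2 * t - 1 ∨ x = 2 * t ∨ x = 2 * t + 1)) := by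
  unfold g3
  split_ifs with h1 h2 <;> simp only [mem_insert, mem_singleton] <;> omega

theorem card_pairFam (m : ℕ) : (pairFam m).card = m := by
  unfold pairFam
  rw [card_image_of_injOn, card_range]
  intro t ht t' ht' h
  rw [mem_coe, mem_range] at ht ht'
  have h1 : (2 * t + 1) ∈ g3 m t' := by
    rw [← h, mem_g3]; omega
  have h2 : (2 * t' + 1) ∈ g3 m t := by
    rw [h, mem_g3]; omega
  rw [mem_g3] at h1 h2
  omega

theorem pairFam_sub {m n : ℕ} (h : 2 * m ≤ n) : ∀ B ∈ pairFam m, B ⊆ range n := by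
  intro B hB x hx
  unfold pairFam at hB
  obtain ⟨t, ht, rfl⟩ := mem_image.1 hB
  rw [mem_range] at ht ⊢
  rw [mem_g3] at hx
  omega

theorem pairFam_card {m : ℕ} (hm : 2 ≤ m) : ∀ B ∈ pairFam m, B.card = 3 := by
  intro B hB
  unfold pairFam at hB
  obtain ⟨t, ht, rfl⟩ := mem_image.1 hB
  rw [mem_range] at ht
  unfold g3
  split_ifs with h1 h2
  all_goals
    rw [card_insert_of_notMem, card_insert_of_notMem, card_singleton]
    · rw [mem_singleton]; omega
    · rw [mem_insert, mem_singleton]; omega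

theorem pairFam_not {m n : ℕ} (hm : 2 ≤ m) (h : 2 * m ≤ n) : ¬ Weighted (range n) (pairFam m) := by
  rintro ⟨c, hc0, ⟨x, hx, hpos⟩, hc⟩
  by_cases hfree : ∀ B ∈ pairFam m, x ∉ B
  · exact absurd (zero_of_free hc0 hc hx hfree) (ne_of_gt hpos)
  push Not at hfree
  obtain ⟨B, hB, hxB⟩ := hfree
  have hB' := hB
  unfold pairFam at hB'
  obtain ⟨t, ht, htB⟩ := mem_image.1 hB'
  rw [mem_range] at ht
  -- the block
  obtain ⟨i, hi⟩ : ∃ i, i = if t + 1 = m ∧ m % 2 = 1 then t / 2 - 1 else t / 2 := ⟨_, rfl⟩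
  have hi2 : 2 * i + 1 < m := by
    rw [hi]; split_ifs with h1 <;> omega
  have hmem0 : ({4 * i, 4 * i + 1, 4 * i + 2} : Finset ℕ) = g3 m (2 * i) := by
    ext y
    rw [mem_g3]
    simp only [mem_insert, mem_singleton]
    omega
  have hmem1 : ({4 * i, 4 * i + 1, 4 * i + 3} : Finset ℕ) = g3 m (2 * i + 1) := by
    ext y
    rw [mem_g3]
    simp only [mem_insert, mem_singleton]
    omega
  by_cases hlast : m = 2 * i + 3
  · have hmem2 : ({4 * i + 3, 4 * i + 4, 4 * i + 5} : Finset ℕ) = g3 m (2 * i + 2) := by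
      ext y
      rw [mem_g3]
      simp only [mem_insert, mem_singleton]
      omega
    obtain ⟨C, hC⟩ : ∃ C : Finset (Finset ℕ), C = {g3 m (2 * i), g3 m (2 * i + 1),
      g3 m (2 * i + 2)} := ⟨_, rfl⟩
    have hlike : Like (typ.getD 5 (0, ∅)) C := by
      refine ⟨fun x => 4 * i + x, fun x _ y _ hxy => by simpa using hxy, ?_⟩
      have h5 : (typ.getD 5 (0, ∅)).2 = {{0, 1, 2}, {0, 1, 3}, {3, 4, 5}} := rfl
      rw [hC, h5, ← hmem0, ← hmem1, ← hmem2]
      simp only [image_insert, image_singleton, add_zero]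
    have hCG : C ⊆ pairFam m := by
      intro X hX
      rw [hC] at hX
      simp only [mem_insert, mem_singleton] at hX
      unfold pairFam
      rcases hX with rfl | rfl | rfl
      · exact mem_image_of_mem _ (mem_range.2 (by omega))
      · exact mem_image_of_mem _ (mem_range.2 (by omega))
      · exact mem_image_of_mem _ (mem_range.2 (by omega))
    have hind : ∀ t' < m, ∀ X ∈ C, ∀ y, y ∈ X → y ∈ g3 m t' → t' = 2 * i ∨ t' = 2 * i + 1 ∨
        t' = 2 * i + 2 := by
      intro t' ht' X hX y hy hy'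
      rw [hC] at hX
      simp only [mem_insert, mem_singleton] at hX
      rw [mem_g3] at hy'
      rcases hX with rfl | rfl | rfl <;> rw [mem_g3] at hy <;> omega
    have hcl : ∀ X ∈ C, ∀ Y ∈ pairFam m, (X ∩ Y).Nonempty → Y ∈ C := by
      intro X hX Y hY hXY
      unfold pairFam at hY
      obtain ⟨t', ht', rfl⟩ := mem_image.1 hY
      rw [mem_range] at ht'
      obtain ⟨y, hy⟩ := hXY
      rw [mem_inter] at hy
      rw [hC]
      simp only [mem_insert, mem_singleton]
      rcases hind t' ht' X hX y hy.1 hy.2 with rfl | rfl | rfl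
      · exact Or.inl rfl
      · exact Or.inr (Or.inl rfl)
      · exact Or.inr (Or.inr rfl)
    have hBC : B ∈ C := by
      have ht3 : t = 2 * i ∨ t = 2 * i + 1 ∨ t = 2 * i + 2 := by
        rw [hi] at hlast ⊢
        split_ifs at hlast ⊢ with h1 <;> omega
      rw [hC, ← htB]
      simp only [mem_insert, mem_singleton]
      rcases ht3 with rfl | rfl | rfl
      · exact Or.inl rfl
      · exact Or.inr (Or.inl rfl)
      · exact Or.inr (Or.inr rfl)
    exact absurd (zero_of_like (by omega : 5 < 7) hlike (pairFam_sub h) hCG hcl hc0 hc B hBC x hxB)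
      (ne_of_gt hpos)
  · obtain ⟨C, hC⟩ : ∃ C : Finset (Finset ℕ), C = {g3 m (2 * i), g3 m (2 * i + 1)} := ⟨_, rfl⟩
    have hlike : Like (typ.getD 4 (0, ∅)) C := by
      refine ⟨fun x => 4 * i + x, fun x _ y _ hxy => by simpa using hxy, ?_⟩
      have h5 : (typ.getD 4 (0, ∅)).2 = {{0, 1, 2}, {0, 1, 3}} := rfl
      rw [hC, h5, ← hmem0, ← hmem1]
      simp only [image_insert, image_singleton, add_zero]
    have hCG : C ⊆ pairFam m := by
      intro X hX
      rw [hC] at hX
      simp only [mem_insert, mem_singleton] at hX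
      unfold pairFam
      rcases hX with rfl | rfl
      · exact mem_image_of_mem _ (mem_range.2 (by omega))
      · exact mem_image_of_mem _ (mem_range.2 (by omega))
    have hind : ∀ t' < m, ∀ X ∈ C, ∀ y, y ∈ X → y ∈ g3 m t' → t' = 2 * i ∨ t' = 2 * i + 1 := by
      intro t' ht' X hX y hy hy'
      rw [hC] at hX
      simp only [mem_insert, mem_singleton] at hX
      rw [mem_g3] at hy'
      rcases hX with rfl | rfl <;> rw [mem_g3] at hy <;> omega
    have hcl : ∀ X ∈ C, ∀ Y ∈ pairFam m, (X ∩ Y).Nonempty → Y ∈ C := by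
      intro X hX Y hY hXY
      unfold pairFam at hY
      obtain ⟨t', ht', rfl⟩ := mem_image.1 hY
      rw [mem_range] at ht'
      obtain ⟨y, hy⟩ := hXY
      rw [mem_inter] at hy
      rw [hC]
      simp only [mem_insert, mem_singleton]
      rcases hind t' ht' X hX y hy.1 hy.2 with rfl | rfl
      · exact Or.inl rfl
      · exact Or.inr rfl
    have hBC : B ∈ C := by
      have ht3 : t = 2 * i ∨ t = 2 * i + 1 := by
        rw [hi] at hlast ⊢
        split_ifs at hlast ⊢ with h1 <;> omega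
      rw [hC, ← htB]
      simp only [mem_insert, mem_singleton]
      rcases ht3 with rfl | rfl
      · exact Or.inl rfl
      · exact Or.inr rfl
    exact absurd (zero_of_like (by omega : 4 < 7) hlike (pairFam_sub h) hCG hcl hc0 hc B hBC x hxB)
      (ne_of_gt hpos)

end Pool.Agent.H85A.FC
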