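import Pool.Agent.H85A.FC.Grow

set_option autoImplicit false

/-! The exceptional families have no weights. -/

namespace Pool.Agent.H85A.FC

open Finset Pool.Agent.N188.FC

variable {α : Type*} [DecidableEq α]

/-- the members of the cylinder over `𝒜0` -/
theorem cylinder {f : ℕ → α} {K0 : Finset ℕ} (hf : Set.InjOn f K0) {N : Finset α}
    (hK : K0.image f ⊆ N) {𝒜0 : Finset (Finset ℕ)} (h𝒜 : ∀ A ∈ 𝒜0, A ⊆ K0) (c : α → ℝ)
    {𝒟 : Finset (Finset α)}
    (h𝒟 : 𝒟 = N.powerset.filter (fun D => K0.filter (fun k => f k ∈ D) ∈ 𝒜0)) :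
    (𝒟.card : ℝ) = 𝒜0.card * 2 ^ (N \ K0.image f).card ∧
      bd c N 𝒟 = bd (fun k => c (f k)) K0 𝒜0 * 2 ^ (N \ K0.image f).card := by
  classical
  set M := N \ K0.image f with hM
  have hmem : ∀ D, D ∈ 𝒟 ↔ D ⊆ N ∧ K0.filter (fun k => f k ∈ D) ∈ 𝒜0 := by
    intro D; rw [h𝒟, mem_filter, mem_powerset]
  have htr : ∀ A ⊆ K0, ∀ R ⊆ M, K0.filter (fun k => f k ∈ A.image f ∪ R) = A := by
    intro A hA R hR
    ext k
    rw [mem_filter, mem_union]
    constructor
    · rintro ⟨hk, h | h⟩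
      · obtain ⟨k', hk', he⟩ := mem_image.1 h
        have := hf (mem_coe.2 (hA hk')) (mem_coe.2 hk) he
        rw [← this]; exact hk'
      · exfalso
        have := hR h
        rw [hM, mem_sdiff] at this
        exact this.2 (mem_image_of_mem f hk)
    · intro hk
      exact ⟨hA hk, Or.inl (mem_image_of_mem f hk)⟩
  have hinj : Set.InjOn (fun p : Finset ℕ × Finset α => p.1.image f ∪ p.2)
      ((𝒜0 ×ˢ M.powerset : Finset (Finset ℕ × Finset α)) : Set (Finset ℕ × Finset α)) := by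
    intro p hp q hq hpq
    rw [mem_coe, mem_product, mem_powerset] at hp hq
    simp only at hpq
    have h1 : p.1 = q.1 := by
      rw [← htr p.1 (h𝒜 _ hp.1) p.2 hp.2, hpq, htr q.1 (h𝒜 _ hq.1) q.2 hq.2]
    have h2 : ∀ p ∈ (𝒜0 ×ˢ M.powerset), (p.1.image f ∪ p.2) ∩ M = p.2 := by
      intro p hp
      rw [mem_product, mem_powerset] at hp
      rw [union_inter_distrib_right]
      have h3 : p.1.image f ∩ M = ∅ := by
        rw [← disjoint_iff_inter_eq_empty, disjoint_left]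
        intro y hy hy'
        rw [hM, mem_sdiff] at hy'
        exact hy'.2 (image_subset_image (h𝒜 _ hp.1) hy)
      rw [h3, empty_union]
      exact inter_eq_left.2 hp.2
    have h3 : p.2 = q.2 := by
      rw [← h2 p (by rw [mem_product, mem_powerset]; exact hp), hpq,
        h2 q (by rw [mem_product, mem_powerset]; exact hq)]
    exact Prod.ext h1 h3
  have himg : 𝒟 = (𝒜0 ×ˢ M.powerset).image (fun p => p.1.image f ∪ p.2) := by
    ext D
    rw [hmem, mem_image]
    constructor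
    · rintro ⟨h1, h2⟩
      refine ⟨(K0.filter (fun k => f k ∈ D), D ∩ M), ?_, ?_⟩
      · rw [mem_product, mem_powerset]
        exact ⟨h2, inter_subset_right⟩
      · ext y
        simp only [mem_union, mem_image, mem_filter, mem_inter]
        constructor
        · rintro (⟨k, ⟨_, hk⟩, rfl⟩ | ⟨h, _⟩)
          · exact hk
          · exact h
        · intro hy
          by_cases hyK : y ∈ K0.image f
          · left
            obtain ⟨k, hk, rfl⟩ := mem_image.1 hyK
            exact ⟨k, ⟨hk, hy⟩, rfl⟩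
          · right
            refine ⟨hy, ?_⟩
            rw [hM, mem_sdiff]
            exact ⟨h1 hy, hyK⟩
    · rintro ⟨p, hp, rfl⟩
      rw [mem_product, mem_powerset] at hp
      refine ⟨?_, ?_⟩
      · refine union_subset ((image_subset_image (h𝒜 _ hp.1)).trans hK) ?_
        exact hp.2.trans sdiff_subset
      · rw [htr p.1 (h𝒜 _ hp.1) p.2 hp.2]
        exact hp.1
  have hcard : 𝒟.card = 𝒜0.card * 2 ^ M.card := by
    rw [himg, card_image_of_injOn hinj, card_product, card_powerset]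
  refine ⟨by rw [hcard]; push_cast; ring, ?_⟩
  rw [bd_split c hK]
  have hz : bd c (N \ K0.image f) 𝒟 = 0 := by
    unfold bd
    refine sum_eq_zero fun D hD => ?_
    have : (N \ K0.image f).filter (fun k => k ∉ D ∧ insert k D ∉ 𝒟) = ∅ := by
      rw [filter_eq_empty_iff]
      rintro k hk ⟨_, h2⟩
      apply h2
      rw [hmem] at hD ⊢
      rw [mem_sdiff] at hk
      refine ⟨insert_subset hk.1 hD.1, ?_⟩
      have : K0.filter (fun k' => f k' ∈ insert k D) = K0.filter (fun k' => f k' ∈ D) := by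
        refine filter_congr ?_
        intro k' hk'
        rw [mem_insert]
        constructor
        · rintro (h | h)
          · exfalso
            apply hk.2
            rw [← h]
            exact mem_image_of_mem f hk'
          · exact h
        · exact Or.inr
      rw [this]; exact hD.2
    rw [this, sum_empty]
  rw [hz, add_zero]
  have h4 : bd c (K0.image f) 𝒟 = ∑ p ∈ 𝒜0 ×ˢ M.powerset,
      ∑ k ∈ K0.filter (fun k => k ∉ p.1 ∧ insert k p.1 ∉ 𝒜0), c (f k) := by
    unfold bd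
    conv_lhs => rw [show (∑ D ∈ 𝒟, ∑ k ∈ (K0.image f).filter (fun k => k ∉ D ∧ insert k D ∉ 𝒟), c k)
      = ∑ D ∈ (𝒜0 ×ˢ M.powerset).image (fun p => p.1.image f ∪ p.2),
        ∑ k ∈ (K0.image f).filter (fun k => k ∉ D ∧ insert k D ∉ 𝒟), c k by rw [← himg]]
    rw [sum_image (fun x hx y hy hxy => hinj (mem_coe.2 hx) (mem_coe.2 hy) hxy)]
    refine sum_congr rfl fun p hp => ?_
    rw [mem_product, mem_powerset] at hp
    have hpK := h𝒜 _ hp.1
    have e1 : (K0.image f).filter (fun k => k ∉ p.1.image f ∪ p.2 ∧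
        insert k (p.1.image f ∪ p.2) ∉ 𝒟) =
        (K0.filter (fun k => k ∉ p.1 ∧ insert k p.1 ∉ 𝒜0)).image f := by
      have hD : ∀ k ∈ K0, (insert (f k) (p.1.image f ∪ p.2) ∈ 𝒟 ↔ insert k p.1 ∈ 𝒜0) := by
        intro k hk
        rw [hmem, ← insert_union, ← image_insert]
        rw [htr (insert k p.1) (insert_subset hk hpK) p.2 hp.2]
        constructor
        · exact fun h => h.2
        · intro h
          refine ⟨union_subset ?_ (hp.2.trans sdiff_subset), h⟩
          exact (image_subset_image (insert_subset hk hpK)).trans hK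
      ext a
      simp only [mem_filter, mem_image, mem_union, not_or]
      constructor
      · rintro ⟨⟨k, hk, rfl⟩, ⟨h1, _⟩, h3⟩
        refine ⟨k, ⟨hk, fun h' => h1 ⟨k, h', rfl⟩, fun h' => h3 ?_⟩, rfl⟩
        exact (hD k hk).2 h'
      · rintro ⟨k, ⟨hk, h1, h2⟩, rfl⟩
        refine ⟨⟨k, hk, rfl⟩, ⟨?_, ?_⟩, fun h' => h2 ((hD k hk).1 h')⟩
        · rintro ⟨k', hk', he⟩
          have := hf (mem_coe.2 (hpK hk')) (mem_coe.2 hk) he
          exact h1 (this ▸ hk')
        · intro h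
          have := hp.2 h
          rw [hM, mem_sdiff] at this
          exact this.2 (mem_image_of_mem f hk)
    rw [e1, sum_image]
    intro x hx y hy hxy
    exact hf (mem_coe.2 (mem_filter.1 hx).1) (mem_coe.2 (mem_filter.1 hy).1) hxy
  rw [h4, sum_product]
  unfold bd
  rw [sum_mul]
  refine sum_congr rfl fun A _ => ?_
  simp only
  rw [sum_const, card_powerset, nsmul_eq_mul]
  push_cast
  ring

/-- the neighbours of `v` -/
def lk (N : ℕ) (H : Finset (Finset ℕ)) (v : ℕ) : Finset ℕ :=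
  (range N).filter (fun k => k ≠ v ∧ ∃ e ∈ H, v ∈ e ∧ k ∈ e)

/-- the independent sets of the link of `v` -/
def ind (N : ℕ) (H : Finset (Finset ℕ)) (v : ℕ) : Finset (Finset ℕ) :=
  (lk N H v).powerset.filter (fun A => ∀ e ∈ H, v ∈ e → ¬ e.erase v ⊆ A)

/-- multipliers which show that there are no weights -/
def Bad (p : ℕ × Finset (Finset ℕ)) (y : List ℕ) : Prop :=
  ∀ k ∈ range p.1, (∑ v ∈ range p.1, y.getD v 0 *
    (if k ∈ lk p.1 p.2 v then cnt (ind p.1 p.2 v) k else 0)) + 1 ≤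
      y.getD k 0 * (ind p.1 p.2 k).card

instance (p : ℕ × Finset (Finset ℕ)) (y : List ℕ) : Decidable (Bad p y) := by
  unfold Bad; infer_instance

theorem bads : ∀ j < 7, ∃ y, Bad (typ.getD j (0, ∅)) y := by
  intro j hj
  interval_cases j
  · exact ⟨[1, 1, 1], by decide +kernel⟩
  · exact ⟨[2, 2, 1, 2, 2], by decide +kernel⟩
  · exact ⟨[12, 12, 7, 15, 7, 12, 12], by decide +kernel⟩
  · exact ⟨[36, 36, 23, 51, 27, 51, 23, 36, 36], by decide +kernel⟩
  · exact ⟨[5, 5, 4, 4], by decide +kernel⟩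
  · exact ⟨[42, 42, 30, 16, 27, 27], by decide +kernel⟩
  · exact ⟨[120, 120, 81, 52, 96, 43, 66, 66], by decide +kernel⟩

theorem typ_cover : ∀ j < 7, ∀ v ∈ range (typ.getD j (0, ∅)).1,
    ∃ e ∈ (typ.getD j (0, ∅)).2, v ∈ e := by
  decide +kernel

/-- the inequality for all independent sets of the link -/
theorem row {N : ℕ} {H : Finset (Finset ℕ)} (hHN : ∀ e ∈ H, e ⊆ range N)
    {f : ℕ → α} (hf : Set.InjOn f (range N)) {S : Finset α} {G : Finset (Finset α)}
    (hG : ∀ B ∈ G, B ⊆ S) (hHG : ∀ e ∈ H, e.image f ∈ G)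
    (hcl : ∀ e ∈ H, ∀ B ∈ G, (e.image f ∩ B).Nonempty → ∃ e' ∈ H, B = e'.image f)
    {c : α → ℝ} (hc : ∀ x ∈ S, ∀ 𝒟 : Finset (Finset α), Valid S G x 𝒟 →
      c x * 𝒟.card ≤ bd c (S.erase x) 𝒟) {v : ℕ} (hv : v ∈ range N)
    (hve : ∃ e ∈ H, v ∈ e) :
    ((ind N H v).card : ℝ) * c (f v) ≤
      ∑ k ∈ range N, ((if k ∈ lk N H v then cnt (ind N H v) k else 0 : ℕ) : ℝ) * c (f k) := by
  classical
  obtain ⟨e0, he0, hve0⟩ := hve
  have hlk : lk N H v ⊆ range N := filter_subset _ _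
  have hfl : Set.InjOn f (lk N H v) := hf.mono (by exact_mod_cast hlk)
  have hxS : f v ∈ S := hG _ (hHG e0 he0) (mem_image_of_mem f hve0)
  have hK : (lk N H v).image f ⊆ S.erase (f v) := by
    intro y hy
    obtain ⟨k, hk, rfl⟩ := mem_image.1 hy
    have hk' := mem_filter.1 hk
    obtain ⟨hkv, e, he, _, hke⟩ := hk'.2
    rw [mem_erase]
    refine ⟨fun h => hkv (hf (mem_coe.2 hk'.1) (mem_coe.2 hv) h), ?_⟩
    exact hG _ (hHG e he) (mem_image_of_mem f hke)
  set 𝒟 : Finset (Finset α) := (S.erase (f v)).powerset.filter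
    (fun D => (lk N H v).filter (fun k => f k ∈ D) ∈ ind N H v) with h𝒟
  have hmem : ∀ D, D ∈ 𝒟 ↔ D ⊆ S.erase (f v) ∧
      (lk N H v).filter (fun k => f k ∈ D) ∈ ind N H v := by
    intro D; rw [h𝒟, mem_filter, mem_powerset]
  have hdown0 : ∀ A ∈ ind N H v, ∀ A' ⊆ A, A' ∈ ind N H v := by
    intro A hA A' hA'
    unfold ind at hA ⊢
    rw [mem_filter, mem_powerset] at hA ⊢
    exact ⟨hA'.trans hA.1, fun e he hve h => hA.2 e he hve (h.trans hA')⟩
  have hvalid : Valid S G (f v) 𝒟 := by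
    refine ⟨fun D hD => ((hmem D).1 hD).1, ?_, ?_⟩
    · intro D hD D' hD'
      rw [hmem] at hD ⊢
      refine ⟨hD'.trans hD.1, hdown0 _ hD.2 _ ?_⟩
      intro k hk
      rw [mem_filter] at hk ⊢
      exact ⟨hk.1, hD' hk.2⟩
    · intro D hD B hB hvB hsub
      rw [hmem] at hD
      obtain ⟨e, he, rfl⟩ := hcl e0 he0 B hB ⟨f v, mem_inter.2 ⟨mem_image_of_mem f hve0, hvB⟩⟩
      have hve : v ∈ e := by
        obtain ⟨v', hv', h⟩ := mem_image.1 hvB
        have := hf (mem_coe.2 (hHN e he hv')) (mem_coe.2 hv) h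
        rw [← this]; exact hv'
      have h1 := hD.2
      unfold ind at h1
      rw [mem_filter] at h1
      refine h1.2 e he hve ?_
      intro k hk
      rw [mem_erase] at hk
      rw [mem_filter]
      refine ⟨mem_filter.2 ⟨hHN e he hk.2, hk.1, e, he, hve, hk.2⟩, ?_⟩
      have h2 := hsub (mem_image_of_mem f hk.2)
      rw [mem_insert] at h2
      rcases h2 with h2 | h2
      · exact absurd (hf (mem_coe.2 (hHN e he hk.2)) (mem_coe.2 hv) h2) hk.1
      · exact h2
  have h1 := hc (f v) hxS 𝒟 hvalid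
  obtain ⟨h2, h3⟩ := cylinder hfl hK (𝒜0 := ind N H v) (by
    intro A hA
    unfold ind at hA
    exact mem_powerset.1 (mem_filter.1 hA).1) c (𝒟 := 𝒟) (by rw [h𝒟])
  rw [h2, h3] at h1
  have hp : (0 : ℝ) < 2 ^ (S.erase (f v) \ (lk N H v).image f).card := by positivity
  have h4 : ((ind N H v).card : ℝ) * c (f v) ≤ bd (fun k => c (f k)) (lk N H v) (ind N H v) := by
    refine le_of_mul_le_mul_right ?_ hp
    calc ((ind N H v).card : ℝ) * c (f v) * 2 ^ (S.erase (f v) \ (lk N H v).image f).card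
        = c (f v) * ((ind N H v).card * 2 ^ (S.erase (f v) \ (lk N H v).image f).card) := by ring
      _ ≤ _ := h1
  refine h4.trans (le_of_eq ?_)
  rw [bd_eq_cnt]
  rw [← sum_subset hlk]
  · refine sum_congr rfl fun k hk => ?_
    rw [if_pos hk]
  · intro k _ hk
    rw [if_neg hk]
    simp

/-- on a component which is exceptional all weights vanish -/
theorem zero_of_like {j : ℕ} (hj : j < 7) {C : Finset (Finset α)}
    (hC : Like (typ.getD j (0, ∅)) C) {S : Finset α} {G : Finset (Finset α)}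
    (hG : ∀ B ∈ G, B ⊆ S) (hCG : C ⊆ G)
    (hcl : ∀ X ∈ C, ∀ Y ∈ G, (X ∩ Y).Nonempty → Y ∈ C)
    {c : α → ℝ} (hc0 : ∀ x, 0 ≤ c x) (hc : ∀ x ∈ S, ∀ 𝒟 : Finset (Finset α), Valid S G x 𝒟 →
      c x * 𝒟.card ≤ bd c (S.erase x) 𝒟) : ∀ X ∈ C, ∀ x ∈ X, c x = 0 := by
  classical
  obtain ⟨f, hf, hCf⟩ := hC
  obtain ⟨y, hy⟩ := bads j hj
  set N := (typ.getD j (0, ∅)).1 with hN
  set H := (typ.getD j (0, ∅)).2 with hH
  have hHN : ∀ e ∈ H, e ⊆ range N := typ_sub j hj
  have hcov : ∀ v ∈ range N, ∃ e ∈ H, v ∈ e := typ_cover j hj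
  have hHC : ∀ e ∈ H, e.image f ∈ C := fun e he => by rw [hCf]; exact mem_image_of_mem _ he
  have hrow : ∀ v ∈ range N, ((ind N H v).card : ℝ) * c (f v) ≤
      ∑ k ∈ range N, ((if k ∈ lk N H v then cnt (ind N H v) k else 0 : ℕ) : ℝ) * c (f k) := by
    intro v hv
    refine row hHN hf hG (fun e he => hCG (hHC e he)) ?_ hc hv (hcov v hv)
    intro e he B hB hne
    have h1 := hcl _ (hHC e he) B hB hne
    rw [hCf] at h1
    obtain ⟨e', he', h⟩ := mem_image.1 h1
    exact ⟨e', he', h.symm⟩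
  -- multiply and add
  have h1 : ∑ v ∈ range N, (y.getD v 0 : ℝ) * (((ind N H v).card : ℝ) * c (f v)) ≤
      ∑ v ∈ range N, (y.getD v 0 : ℝ) * ∑ k ∈ range N,
        ((if k ∈ lk N H v then cnt (ind N H v) k else 0 : ℕ) : ℝ) * c (f k) :=
    sum_le_sum fun v hv => mul_le_mul_of_nonneg_left (hrow v hv) (Nat.cast_nonneg _)
  have h2 : ∑ v ∈ range N, (y.getD v 0 : ℝ) * ∑ k ∈ range N,
        ((if k ∈ lk N H v then cnt (ind N H v) k else 0 : ℕ) : ℝ) * c (f k) =
      ∑ k ∈ range N, ((∑ v ∈ range N, y.getD v 0 *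
        (if k ∈ lk N H v then cnt (ind N H v) k else 0) : ℕ) : ℝ) * c (f k) := by
    have h3 : ∀ v ∈ range N, (y.getD v 0 : ℝ) * ∑ k ∈ range N,
        ((if k ∈ lk N H v then cnt (ind N H v) k else 0 : ℕ) : ℝ) * c (f k) =
        ∑ k ∈ range N, ((y.getD v 0 * (if k ∈ lk N H v then cnt (ind N H v) k else 0) : ℕ) : ℝ) *
          c (f k) := by
      intro v _
      rw [mul_sum]
      refine sum_congr rfl fun k _ => ?_
      push_cast
      ring
    rw [sum_congr rfl h3, sum_comm]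
    refine sum_congr rfl fun k _ => ?_
    rw [← sum_mul]
    push_cast
    rfl
  have h3 : ∀ k ∈ range N, (((∑ v ∈ range N, y.getD v 0 *
        (if k ∈ lk N H v then cnt (ind N H v) k else 0) : ℕ) : ℝ) + 1) * c (f k) ≤
      (y.getD k 0 : ℝ) * (((ind N H k).card : ℝ) * c (f k)) := by
    intro k hk
    have h4 := hy k hk
    have h5 : ((∑ v ∈ range N, y.getD v 0 *
        (if k ∈ lk N H v then cnt (ind N H v) k else 0) : ℕ) : ℝ) + 1 ≤
        (y.getD k 0 : ℝ) * ((ind N H k).card : ℝ) := by exact_mod_cast h4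
    calc _ ≤ ((y.getD k 0 : ℝ) * ((ind N H k).card : ℝ)) * c (f k) :=
          mul_le_mul_of_nonneg_right h5 (hc0 _)
      _ = _ := by ring
  have h4 : ∑ k ∈ range N, c (f k) ≤ 0 := by
    have h5 := sum_le_sum h3
    have h6 : ∑ k ∈ range N, (((∑ v ∈ range N, y.getD v 0 *
        (if k ∈ lk N H v then cnt (ind N H v) k else 0) : ℕ) : ℝ) + 1) * c (f k) =
        ∑ k ∈ range N, ((∑ v ∈ range N, y.getD v 0 *
        (if k ∈ lk N H v then cnt (ind N H v) k else 0) : ℕ) : ℝ) * c (f k) +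
        ∑ k ∈ range N, c (f k) := by
      rw [← sum_add_distrib]
      refine sum_congr rfl fun k _ => ?_
      ring
    rw [h6] at h5
    rw [h2] at h1
    linarith
  have h5 : ∀ k ∈ range N, c (f k) = 0 := by
    have h6 : ∑ k ∈ range N, c (f k) = 0 := le_antisymm h4 (sum_nonneg fun _ _ => hc0 _)
    exact (sum_eq_zero_iff_of_nonneg (fun _ _ => hc0 _)).1 h6
  intro X hX x hx
  rw [hCf] at hX
  obtain ⟨e, he, rfl⟩ := mem_image.1 hX
  obtain ⟨k, hk, rfl⟩ := mem_image.1 hx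
  exact h5 k (hHN e he hk)

/-- points in no member have weight zero -/
theorem zero_of_free {S : Finset α} {G : Finset (Finset α)} {c : α → ℝ} (hc0 : ∀ x, 0 ≤ c x)
    (hc : ∀ x ∈ S, ∀ 𝒟 : Finset (Finset α), Valid S G x 𝒟 →
      c x * 𝒟.card ≤ bd c (S.erase x) 𝒟) {x : α} (hx : x ∈ S) (hfree : ∀ B ∈ G, x ∉ B) :
    c x = 0 := by
  classical
  have h1 := hc x hx (S.erase x).powerset ⟨fun D hD => mem_powerset.1 hD,
    fun D hD D' hD' => mem_powerset.2 (hD'.trans (mem_powerset.1 hD)),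
    fun D _ B hB hxB => absurd hxB (hfree B hB)⟩
  have h2 : bd c (S.erase x) (S.erase x).powerset = 0 := by
    unfold bd
    refine sum_eq_zero fun D hD => ?_
    have : (S.erase x).filter (fun k => k ∉ D ∧ insert k D ∉ (S.erase x).powerset) = ∅ := by
      rw [filter_eq_empty_iff]
      rintro k hk ⟨_, h⟩
      exact h (mem_powerset.2 (insert_subset hk (mem_powerset.1 hD)))
    rw [this, sum_empty]
  rw [h2, card_powerset] at h1
  push_cast at h1
  have hp : (0 : ℝ) < 2 ^ (S.erase x).card := by positivity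
  nlinarith [hc0 x]

end Pool.Agent.H85A.FC
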